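import Pool.Agent.Helper20.KP.StH

/-!
# Project KP, module HDM: dimension of the space of homogeneous functions on the orbit
-/

set_option autoImplicit false

namespace Pool.Agent.Helper76.KP

open MeasureTheory Filter Pool.Agent.Helper52.KP Pool.Agent.Helper20.KP
open scoped Topology ContDiff

section hdm

open Classical in
/-- extension by zero -/
private noncomputable def ext0 {N : ℕ} {O : Set (Fin N → ℂ)} (f : O → ℂ) (x : Fin N → ℂ) : ℂ :=
  if h : x ∈ O then f ⟨x, h⟩ else 0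

private theorem ext0_mem {N : ℕ} {O : Set (Fin N → ℂ)} (f : O → ℂ) {x : Fin N → ℂ} (hx : x ∈ O) :
    ext0 f x = f ⟨x, hx⟩ := dif_pos hx

private theorem ext0_add {N : ℕ} {O : Set (Fin N → ℂ)} (f g : O → ℂ) (x : Fin N → ℂ) :
    ext0 (f + g) x = ext0 f x + ext0 g x := by
  unfold ext0
  by_cases h : x ∈ O <;> simp [h]

private theorem ext0_smul {N : ℕ} {O : Set (Fin N → ℂ)} (a : ℂ) (f : O → ℂ) (x : Fin N → ℂ) :
    ext0 (a • f) x = a * ext0 f x := by
  unfold ext0
  by_cases h : x ∈ O <;> simp [h]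

private theorem hol_congr {N : ℕ} {O : Set (Fin N → ℂ)} {F G : (Fin N → ℂ) → ℂ}
    (hF : HolO O F) (h : ∀ x ∈ O, G x = F x) : HolO O G := by
  intro p Ω γ h1 h2 h3
  exact (hF p Ω γ h1 h2 h3).congr fun z hz => h _ (h3 hz)

private theorem hom_congr {D : OD} (hD : GoodO D) {k : ℕ} {F G : (Fin D.N → ℂ) → ℂ}
    (hF : HomO D.O k F) (h : ∀ x ∈ D.O, G x = F x) : HomO D.O k G := by
  intro x hx c hc
  rw [h _ (hD.cone x hx c hc), h _ hx, hF x hx c hc]

private theorem ext0_hol {D : OD} (hD : GoodO D) {k : ℕ} (f : D.HK k) :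
    HolO D.O (ext0 (f : D.O → ℂ)) ∧ HomO D.O k (ext0 (f : D.O → ℂ)) := by
  obtain ⟨F, h1, h2, h3⟩ := f.2
  have h4 : ∀ x ∈ D.O, ext0 (f : D.O → ℂ) x = F x := fun x hx => by
    rw [ext0_mem _ hx, h3]
  exact ⟨hol_congr h1 h4, hom_congr hD h2 h4⟩

private theorem enum {D : OD} {Y : D.LM} {Dc : MvPolynomial (Fin D.m) ℂ} {rd : ℕ}
    (hFB : FB D Y Dc rd) (y : {y : Fin D.m → ℂ // ev Dc y ≠ 0}) :
    ∃ e : Fin rd → (Fin D.N → ℂ), Function.Injective e ∧ D.fb Y y = Set.range e := by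
  obtain ⟨ρ, hρ, ζ, -, -, h⟩ := hFB.loc y.1 y.2
  exact ⟨fun i => ζ i y.1, h y.1 (Metric.mem_ball_self hρ)⟩

private theorem tc_eq {D : OD} {Y : D.LM} {rd : ℕ} {y : Fin D.m → ℂ}
    {e : Fin rd → (Fin D.N → ℂ)} (he : Function.Injective e) (hr : D.fb Y y = Set.range e)
    (F : (Fin D.N → ℂ) → ℂ) : D.tc Y F y = ∑ i, F (e i) := by
  unfold OD.tc
  rw [hr, finsum_mem_range he, finsum_eq_sum_of_fintype]

private theorem eval_hom {m k : ℕ} {P : MvPolynomial (Fin m) ℂ} (hP : P.IsHomogeneous k) (c : ℂ)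
    (y : Fin m → ℂ) : ev P (c • y) = c ^ k * ev P y := by
  simp only [ev, MvPolynomial.eval_eq', Finset.mul_sum]
  refine Finset.sum_congr rfl fun d hd => ?_
  have h1 : ∑ i, d i = k := by
    have h2 := hP (MvPolynomial.mem_support_iff.1 hd)
    rw [← h2, Finsupp.weight_apply, Finsupp.sum_fintype _ _ (by simp)]
    simp
  have h3 : ∏ i, (c • y) i ^ d i = c ^ k * ∏ i, y i ^ d i := by
    simp only [Pi.smul_apply, smul_eq_mul, mul_pow, Finset.prod_mul_distrib]
    rw [Finset.prod_pow_eq_pow_sum, h1]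
  rw [h3]
  ring

private theorem eval_diff {m : ℕ} (P : MvPolynomial (Fin m) ℂ) :
    Differentiable ℂ (fun z : Fin m → ℂ => ev P z) := by
  induction P using MvPolynomial.induction_on with
  | C a => simp [ev]
  | add p q hp hq =>
    have : (fun z : Fin m → ℂ => ev (p + q) z) = fun z => ev p z + ev q z := by
      funext z
      simp [ev]
    rw [this]
    exact hp.add hq
  | mul_X p i hp =>
    have : (fun z : Fin m → ℂ => ev (p * MvPolynomial.X i) z) = fun z => ev p z * z i := by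
      funext z
      simp [ev]
    rw [this]
    exact hp.mul (differentiable_apply i)

private theorem hol_Y {D : OD} (Y : D.LM) (P : MvPolynomial (Fin D.m) ℂ) :
    HolO D.O (fun x => ev P (Y x)) := by
  intro p Ω γ _ h2 _
  have h3 : Differentiable ℂ fun x : Fin D.N → ℂ => Y x :=
    (LinearMap.toContinuousLinearMap Y).differentiable
  exact ((eval_diff P).comp h3).comp_differentiableOn h2

private theorem hom_Y {D : OD} (Y : D.LM) {P : MvPolynomial (Fin D.m) ℂ} {k : ℕ}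
    (hP : P.IsHomogeneous k) : HomO D.O k (fun x => ev P (Y x)) := by
  intro x _ c _
  simp only [map_smul]
  exact eval_hom hP c (Y x)

/-- a polynomial which vanishes where another one does not is zero -/
private theorem poly_zero {m : ℕ} {P DD : MvPolynomial (Fin m) ℂ} (hDD : DD ≠ 0)
    (h : ∀ y, ev DD y ≠ 0 → ev P y = 0) : P = 0 := by
  have h1 : P * DD = 0 := by
    apply MvPolynomial.funext
    intro y
    by_cases hy : ev DD y = 0
    · have h2 : MvPolynomial.eval y DD = 0 := hy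
      rw [map_mul, h2, mul_zero, map_zero]
    · have h2 : MvPolynomial.eval y P = 0 := h y hy
      rw [map_mul, h2, zero_mul, map_zero]
  exact (mul_eq_zero.1 h1).resolve_right hDD

private theorem fin_ge {D : OD} (hD : GoodO D) {Y : D.LM} {Dc : MvPolynomial (Fin D.m) ℂ} {rd : ℕ}
    (hFB : FB D Y Dc rd) {l : (Fin D.N → ℂ) →ₗ[ℂ] ℂ} {T : ℕ → MvPolynomial (Fin D.m) ℂ}
    (hSL : SL D Y Dc rd l T) (hHHP : StHHP) (hHOC : StHOC) {k : ℕ} (hk : rd ≤ k)
    [FiniteDimensional ℂ (D.HK k)] :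
    ∑ i : Fin rd, (k - (i : ℕ) + D.m - 1).choose (D.m - 1) ≤ Module.finrank ℂ (D.HK k) := by
  have hm : 0 < D.m := lt_of_lt_of_le (by norm_num) hD.hm
  obtain ⟨hdim, -, -⟩ := hHHP D.m hm
  have : ∀ i : Fin rd, Module.Finite ℂ (MvPolynomial.homogeneousSubmodule (Fin D.m) ℂ (k - i)) :=
    fun i => (hdim _).1
  obtain ⟨-, hpoly, hlin, hop, hho, hpw, hhp, -, -⟩ := hHOC D hD
  set DD := Dc * (Matrix.of fun i j : Fin rd => T (i + j)).det with hDD
  have hDD0 : DD ≠ 0 := mul_ne_zero hFB.D0 hSL.det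
  -- the functions
  have hmem : ∀ P : (∀ i : Fin rd, MvPolynomial.homogeneousSubmodule (Fin D.m) ℂ (k - i)),
      HolO D.O (fun x => ∑ i, ev (P i : MvPolynomial (Fin D.m) ℂ) (Y x) * l x ^ (i : ℕ)) ∧
      HomO D.O k (fun x => ∑ i, ev (P i : MvPolynomial (Fin D.m) ℂ) (Y x) * l x ^ (i : ℕ)) := by
    intro P
    constructor
    · intro p Ω γ h1 h2 h3
      refine DifferentiableOn.fun_sum fun i _ => ?_
      exact (hol_Y Y (P i : MvPolynomial (Fin D.m) ℂ) p Ω γ h1 h2 h3).mul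
        ((hpw _ (hlin l).1 i) p Ω γ h1 h2 h3)
    · intro x hx c hc
      simp only
      rw [Finset.mul_sum]
      refine Finset.sum_congr rfl fun i _ => ?_
      have h1 : (P i : MvPolynomial (Fin D.m) ℂ).IsHomogeneous (k - i) := (P i).2
      have h3 : ev (P i : MvPolynomial (Fin D.m) ℂ) (Y (c • x)) =
          c ^ (k - (i : ℕ)) * ev (P i : MvPolynomial (Fin D.m) ℂ) (Y x) := hom_Y Y h1 x hx c hc
      rw [h3, map_smul, smul_eq_mul, mul_pow]
      have h2 : c ^ k = c ^ (k - (i : ℕ)) * c ^ (i : ℕ) := by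
        rw [← pow_add, Nat.sub_add_cancel (le_trans i.2.le hk)]
      rw [h2]
      ring
  let Θ : (∀ i : Fin rd, MvPolynomial.homogeneousSubmodule (Fin D.m) ℂ (k - i)) →ₗ[ℂ] D.HK k :=
    { toFun := fun P => ⟨fun x => ∑ i, ev (P i : MvPolynomial (Fin D.m) ℂ) (Y x) * l x ^ (i : ℕ),
        ⟨_, (hmem P).1, (hmem P).2, fun x => rfl⟩⟩
      map_add' := by
        intro P Q
        apply Subtype.ext
        funext x
        show ∑ i, ev ((P i : MvPolynomial (Fin D.m) ℂ) + (Q i : MvPolynomial (Fin D.m) ℂ)) (Y x) * l x ^ (i : ℕ) =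
          ∑ i, ev (P i : MvPolynomial (Fin D.m) ℂ) (Y x) * l x ^ (i : ℕ) +
            ∑ i, ev (Q i : MvPolynomial (Fin D.m) ℂ) (Y x) * l x ^ (i : ℕ)
        rw [← Finset.sum_add_distrib]
        refine Finset.sum_congr rfl fun i _ => ?_
        rw [ev, map_add]
        ring
      map_smul' := by
        intro a P
        apply Subtype.ext
        funext x
        show ∑ i, ev (a • (P i : MvPolynomial (Fin D.m) ℂ)) (Y x) * l x ^ (i : ℕ) =
          a * ∑ i, ev (P i : MvPolynomial (Fin D.m) ℂ) (Y x) * l x ^ (i : ℕ)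
        rw [Finset.mul_sum]
        refine Finset.sum_congr rfl fun i _ => ?_
        rw [ev, MvPolynomial.smul_eval]
        ring }
  have hinj : Function.Injective Θ := by
    rw [← LinearMap.ker_eq_bot, LinearMap.ker_eq_bot']
    intro P hP
    have h1 : ∀ x : D.O, ∑ i, ev (P i : MvPolynomial (Fin D.m) ℂ) (Y x) * l x ^ (i : ℕ) = 0 := by
      intro x
      have h2 := congrFun (congrArg Subtype.val hP) x
      exact h2
    funext i
    apply Subtype.ext
    refine poly_zero hDD0 fun y hy => ?_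
    have hy1 : ev Dc y ≠ 0 := by
      intro h
      apply hy
      rw [hDD, ev, map_mul]
      exact mul_eq_zero_of_left h _
    have hy2 : ev (Matrix.of fun i j : Fin rd => T (i + j)).det y ≠ 0 := by
      intro h
      apply hy
      rw [hDD, ev, map_mul]
      exact mul_eq_zero_of_right _ h
    obtain ⟨e, he, hr⟩ := enum hFB ⟨y, hy1⟩
    simp only at hr
    have hmemf : ∀ j, e j ∈ D.fb Y y := fun j => by
      rw [hr]
      exact Set.mem_range_self j
    have hinjl : Function.Injective fun j => l (e j) := by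
      intro a b hab
      exact he (hSL.sep y hy1 hy2 (hmemf a) (hmemf b) hab)
    have h3 := Matrix.eq_zero_of_forall_index_sum_mul_pow_eq_zero (f := fun j => l (e j))
      (v := fun i => ev (P i : MvPolynomial (Fin D.m) ℂ) y) hinjl (fun j => by
        have h4 := h1 ⟨e j, (hmemf j).1⟩
        simp only [(hmemf j).2] at h4
        exact h4)
    exact congrFun h3 i
  have h5 := LinearMap.finrank_le_finrank_of_injective hinj
  rw [Module.finrank_pi_fintype] at h5
  refine le_trans (le_of_eq ?_) h5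
  refine Finset.sum_congr rfl fun i _ => ?_
  rw [(hdim _).2]

private theorem fin_le {D : OD} (hD : GoodO D) {Y : D.LM} {Dc : MvPolynomial (Fin D.m) ℂ} {rd : ℕ}
    (hFB : FB D Y Dc rd) {l : (Fin D.N → ℂ) →ₗ[ℂ] ℂ} {T : ℕ → MvPolynomial (Fin D.m) ℂ}
    (hSL : SL D Y Dc rd l T) (hHSP : StHSP) (hHHP : StHHP) (hHOC : StHOC) (k : ℕ) :
    FiniteDimensional ℂ (D.HK k) ∧
    Module.finrank ℂ (D.HK k) ≤ ∑ i : Fin rd, (k + (i : ℕ) + D.m - 1).choose (D.m - 1) := by
  have hm : 0 < D.m := lt_of_lt_of_le (by norm_num) hD.hm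
  obtain ⟨hdim, -, -⟩ := hHHP D.m hm
  have : ∀ i : Fin rd, Module.Finite ℂ (MvPolynomial.homogeneousSubmodule (Fin D.m) ℂ (k + i)) :=
    fun i => (hdim _).1
  obtain ⟨hcont, hpoly, hlin, hop, hho, hpw, hhp, -, -⟩ := hHOC D hD
  set DD := Dc * (Matrix.of fun i j : Fin rd => T (i + j)).det with hDD
  have hDD0 : DD ≠ 0 := mul_ne_zero hFB.D0 hSL.det
  choose E hEi hEr using enum hFB
  let Ψ : D.HK k →ₗ[ℂ] (Fin rd → {y : Fin D.m → ℂ // ev Dc y ≠ 0} → ℂ) :=
    { toFun := fun f j y => ∑ i, ext0 (f : D.O → ℂ) (E y i) * l (E y i) ^ (j : ℕ)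
      map_add' := by
        intro f g
        funext j y
        show ∑ i, ext0 ((f : D.O → ℂ) + (g : D.O → ℂ)) (E y i) * l (E y i) ^ (j : ℕ) =
          ∑ i, ext0 (f : D.O → ℂ) (E y i) * l (E y i) ^ (j : ℕ) +
            ∑ i, ext0 (g : D.O → ℂ) (E y i) * l (E y i) ^ (j : ℕ)
        rw [← Finset.sum_add_distrib]
        refine Finset.sum_congr rfl fun i _ => ?_
        rw [ext0_add]
        ring
      map_smul' := by
        intro a f
        funext j y
        show ∑ i, ext0 (a • (f : D.O → ℂ)) (E y i) * l (E y i) ^ (j : ℕ) =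
          a * ∑ i, ext0 (f : D.O → ℂ) (E y i) * l (E y i) ^ (j : ℕ)
        rw [Finset.mul_sum]
        refine Finset.sum_congr rfl fun i _ => ?_
        rw [ext0_smul]
        ring }
  let Ξ : (∀ i : Fin rd, MvPolynomial.homogeneousSubmodule (Fin D.m) ℂ (k + i)) →ₗ[ℂ]
      (Fin rd → {y : Fin D.m → ℂ // ev Dc y ≠ 0} → ℂ) :=
    { toFun := fun P j y => ev (P j : MvPolynomial (Fin D.m) ℂ) y.1
      map_add' := by
        intro P Q
        funext j y
        show ev ((P j : MvPolynomial (Fin D.m) ℂ) + (Q j : MvPolynomial (Fin D.m) ℂ)) y.1 = _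
        rw [ev, map_add]
        rfl
      map_smul' := by
        intro a P
        funext j y
        show ev (a • (P j : MvPolynomial (Fin D.m) ℂ)) y.1 = _
        rw [ev, MvPolynomial.smul_eval]
        rfl }
  have hrange : LinearMap.range Ψ ≤ LinearMap.range Ξ := by
    rintro _ ⟨f, rfl⟩
    obtain ⟨f1, f2⟩ := ext0_hol hD f
    have h1 : ∀ j : Fin rd, ∃ P : MvPolynomial (Fin D.m) ℂ, P.IsHomogeneous (k + j) ∧
        ∀ y, ev Dc y ≠ 0 → D.tc Y (fun x => ext0 (f : D.O → ℂ) x * l x ^ (j : ℕ)) y = ev P y := by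
      intro j
      have h2 : HolO D.O (fun x => ext0 (f : D.O → ℂ) x * l x ^ (j : ℕ)) :=
        (hop _ _ f1 (hpw _ (hlin l).1 j)).2
      have h3 : HomO D.O (k + j) (fun x => ext0 (f : D.O → ℂ) x * l x ^ (j : ℕ)) := by
        have h4 := hho k (1 * j) _ _ f2 (hhp 1 _ (hlin l).2 j)
        rwa [one_mul] at h4
      exact (hHSP D hD Y Dc rd hFB).2 (k + j) _ h2 h3
    choose P hP1 hP2 using h1
    refine ⟨fun j => ⟨P j, hP1 j⟩, ?_⟩
    funext j y
    show ev (P j) y.1 = ∑ i, ext0 (f : D.O → ℂ) (E y i) * l (E y i) ^ (j : ℕ)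
    rw [← hP2 j y.1 y.2, tc_eq (hEi y) (hEr y)]
  have hinj : Function.Injective Ψ := by
    rw [← LinearMap.ker_eq_bot, LinearMap.ker_eq_bot']
    intro f hf
    obtain ⟨f1, f2⟩ := ext0_hol hD f
    have hz : ∀ x ∈ D.O, ev DD (Y x) ≠ 0 → ext0 (f : D.O → ℂ) x = 0 := by
      intro x hx hy
      have hy1 : ev Dc (Y x) ≠ 0 := by
        intro h
        apply hy
        rw [hDD, ev, map_mul]
        exact mul_eq_zero_of_left h _
      have hy2 : ev (Matrix.of fun i j : Fin rd => T (i + j)).det (Y x) ≠ 0 := by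
        intro h
        apply hy
        rw [hDD, ev, map_mul]
        exact mul_eq_zero_of_right _ h
      have hr := hEr ⟨Y x, hy1⟩
      simp only at hr
      have hmemf : ∀ j, E ⟨Y x, hy1⟩ j ∈ D.fb Y (Y x) := fun j => by
        rw [hr]
        exact Set.mem_range_self j
      have hinjl : Function.Injective fun j => l (E ⟨Y x, hy1⟩ j) := by
        intro a b hab
        exact hEi _ (hSL.sep (Y x) hy1 hy2 (hmemf a) (hmemf b) hab)
      have h3 := Matrix.eq_zero_of_forall_pow_sum_mul_pow_eq_zero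
        (f := fun j => l (E ⟨Y x, hy1⟩ j))
        (v := fun j => ext0 (f : D.O → ℂ) (E ⟨Y x, hy1⟩ j)) hinjl (fun j =>
          congrFun (congrFun hf j) ⟨Y x, hy1⟩)
      have hxm : x ∈ Set.range (E ⟨Y x, hy1⟩) := by
        rw [← hr]
        exact ⟨hx, rfl⟩
      obtain ⟨i, hi⟩ := hxm
      rw [← hi]
      exact congrFun h3 i
    apply Subtype.ext
    funext x
    show (f : D.O → ℂ) x = 0
    have hcl := hFB.dns DD hDD0 x.2
    have hc := hcont _ f1 x.1 x.2
    have hne : (𝓝[{x | x ∈ D.O ∧ ev DD (Y x) ≠ 0}] x.1).NeBot := mem_closure_iff_nhdsWithin_neBot.1 hcl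
    have hc2 : Tendsto (ext0 (f : D.O → ℂ)) (𝓝[{x | x ∈ D.O ∧ ev DD (Y x) ≠ 0}] x.1)
        (𝓝 (ext0 (f : D.O → ℂ) x.1)) := hc.mono_left (nhdsWithin_mono _ fun z hz => hz.1)
    have hc3 : Tendsto (ext0 (f : D.O → ℂ)) (𝓝[{x | x ∈ D.O ∧ ev DD (Y x) ≠ 0}] x.1) (𝓝 0) := by
      refine tendsto_const_nhds.congr' ?_
      filter_upwards [self_mem_nhdsWithin] with z hz'
      exact (hz z hz'.1 hz'.2).symm
    have h6 := tendsto_nhds_unique hc2 hc3
    rwa [ext0_mem _ x.2] at h6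
  have hfr : FiniteDimensional ℂ (LinearMap.range Ξ) := inferInstance
  have hfr2 : FiniteDimensional ℂ (LinearMap.range Ψ) :=
    Submodule.finiteDimensional_of_le hrange
  have hfin : FiniteDimensional ℂ (D.HK k) :=
    Module.Finite.equiv (LinearEquiv.ofInjective Ψ hinj).symm
  refine ⟨hfin, ?_⟩
  have h1 : Module.finrank ℂ (D.HK k) = Module.finrank ℂ (LinearMap.range Ψ) :=
    (LinearEquiv.ofInjective Ψ hinj).finrank_eq
  have h2 : Module.finrank ℂ (LinearMap.range Ψ) ≤ Module.finrank ℂ (LinearMap.range Ξ) :=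
    Submodule.finrank_mono hrange
  have h3 := LinearMap.finrank_range_le Ξ
  rw [Module.finrank_pi_fintype] at h3
  rw [h1]
  refine (h2.trans h3).trans (le_of_eq ?_)
  refine Finset.sum_congr rfl fun i _ => ?_
  rw [(hdim _).2]

end hdm

theorem hHDM (hHSP : StHSP) (hHHP : StHHP) (hHOC : StHOC) : StHDM := by
  intro D hD Y Dc rd hFB
  have hm : 0 < D.m := lt_of_lt_of_le (by norm_num) hD.hm
  obtain ⟨⟨l, T, hSL⟩, -⟩ := hHSP D hD Y Dc rd hFB
  have hle := fin_le hD hFB hSL hHSP hHHP hHOC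
  refine ⟨fun k => (hle k).1, ?_⟩
  obtain ⟨-, hup, hlo⟩ := hHHP D.m hm
  have e1 : (rd : ℝ) / (D.m - 1).factorial = ∑ _i : Fin rd, (1 : ℝ) / (D.m - 1).factorial := by
    rw [Finset.sum_const, Finset.card_univ, Fintype.card_fin, nsmul_eq_mul]
    ring
  rw [e1]
  have t1 : Tendsto (fun k : ℕ => ∑ i : Fin rd,
      ((k - (i : ℕ) + D.m - 1).choose (D.m - 1) : ℝ) / (k : ℝ) ^ (D.m - 1)) atTop
      (𝓝 (∑ _i : Fin rd, (1 : ℝ) / (D.m - 1).factorial)) :=
    tendsto_finsetSum _ fun i _ => hlo i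
  have t2 : Tendsto (fun k : ℕ => ∑ i : Fin rd,
      ((k + (i : ℕ) + D.m - 1).choose (D.m - 1) : ℝ) / (k : ℝ) ^ (D.m - 1)) atTop
      (𝓝 (∑ _i : Fin rd, (1 : ℝ) / (D.m - 1).factorial)) :=
    tendsto_finsetSum _ fun i _ => hup i
  refine tendsto_of_tendsto_of_tendsto_of_le_of_le' t1 t2 ?_ ?_
  · filter_upwards [eventually_ge_atTop rd] with k hk
    have := (hle k).1
    have h1 := fin_ge hD hFB hSL hHHP hHOC hk
    rw [← Finset.sum_div]
    refine div_le_div_of_nonneg_right ?_ (by positivity)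
    exact_mod_cast h1
  · refine Eventually.of_forall fun k => ?_
    rw [← Finset.sum_div]
    refine div_le_div_of_nonneg_right ?_ (by positivity)
    exact_mod_cast (hle k).2

end Pool.Agent.Helper76.KP
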