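import Pool.Agent.Helper52.KP.StM
import Pool.Agent.Helper22.KP.M_EUL
import Pool.Agent.Helper19.KP.M_STK

/-!
# Project KP, module CU1: energy of the exhaustion function
-/

set_option autoImplicit false

namespace Pool.Agent.Helper76.KP

open Pool.Agent.Helper52.KP MeasureTheory Filter
open scoped ContDiff ComplexOrder Topology

section cutoffs

/-- smooth cutoff: `1` on `(-∞, 1]`, `0` on `[2, ∞)` -/
private noncomputable def th (s : ℝ) : ℝ := Real.smoothTransition (2 - s)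

private theorem th_smooth : ContDiff ℝ ∞ th :=
  Real.smoothTransition.contDiff.comp (contDiff_const.sub contDiff_id)

private theorem th_nn (s : ℝ) : 0 ≤ th s := Real.smoothTransition.nonneg _

private theorem th_le (s : ℝ) : th s ≤ 1 := Real.smoothTransition.le_one _

private theorem th_one {s : ℝ} (h : s ≤ 1) : th s = 1 :=
  Real.smoothTransition.one_of_one_le (by linarith)

private theorem th_zero {s : ℝ} (h : 2 ≤ s) : th s = 0 :=
  Real.smoothTransition.zero_of_nonpos (by linarith)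

/-- primitive of the cutoff -/
private noncomputable def Th (s : ℝ) : ℝ := ∫ t in s..2, th t

private theorem Th_deriv (s : ℝ) : HasDerivAt Th (-th s) s :=
  intervalIntegral.integral_hasDerivAt_left (th_smooth.continuous.intervalIntegrable _ _)
    (th_smooth.continuous.stronglyMeasurableAtFilter _ _) th_smooth.continuous.continuousAt

private theorem Th_smooth : ContDiff ℝ ∞ Th := by
  rw [contDiff_infty_iff_deriv]
  refine ⟨fun s => (Th_deriv s).differentiableAt, ?_⟩
  have h : deriv Th = fun s => -th s := funext fun s => (Th_deriv s).deriv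
  rw [h]
  exact th_smooth.neg

private theorem Th_zero {s : ℝ} (h : 2 ≤ s) : Th s = 0 := by
  unfold Th
  rw [intervalIntegral.integral_symm]
  have h1 : ∫ t in (2 : ℝ)..s, th t = ∫ t in (2 : ℝ)..s, (0 : ℝ) := by
    refine intervalIntegral.integral_congr fun t ht => ?_
    rw [Set.uIcc_of_le h] at ht
    exact th_zero ht.1
  rw [h1]
  simp

private theorem Th_nn (s : ℝ) : 0 ≤ Th s := by
  rcases le_total s 2 with h | h
  · exact intervalIntegral.integral_nonneg h fun t _ => th_nn t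
  · exact (Th_zero h).ge

private theorem Th_le {s c : ℝ} (hc : 0 ≤ c) (h : -c ≤ s) : Th s ≤ 2 + c := by
  rcases le_total s 2 with h2 | h2
  · have h1 : Th s ≤ ∫ t in s..2, (1 : ℝ) :=
      intervalIntegral.integral_mono_on h2 (th_smooth.continuous.intervalIntegrable _ _)
        (continuous_const.intervalIntegrable _ _) fun t _ => th_le t
    rw [intervalIntegral.integral_const, smul_eq_mul, mul_one] at h1
    linarith
  · rw [Th_zero h2]
    linarith

/-- cutoff of the weight -/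
private noncomputable def gb (a b : ℕ) (s : ℝ) : ℝ :=
  (1 + s ^ a) * Real.exp (-s) * (th (s / (b + 1)) * th (1 / ((b + 1) * s)))

private theorem gb_smooth (a b : ℕ) : ContDiffOn ℝ ∞ (gb a b) (Set.Ioi 0) := by
  intro s hs
  have hs0 : s ≠ 0 := ne_of_gt hs
  have hb : ((b : ℝ) + 1) ≠ 0 := by positivity
  have h1 : ContDiffAt ℝ ∞ (fun s : ℝ => (1 + s ^ a) * Real.exp (-s)) s :=
    (contDiffAt_const.add (contDiffAt_id.pow a)).mul (contDiffAt_id.neg.exp)
  have h2 : ContDiffAt ℝ ∞ (fun s : ℝ => th (s / (b + 1))) s :=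
    th_smooth.contDiffAt.comp s (contDiffAt_id.div_const _)
  have h3 : ContDiffAt ℝ ∞ (fun s : ℝ => th (1 / ((b + 1) * s))) s :=
    th_smooth.contDiffAt.comp s (contDiffAt_const.div (contDiffAt_const.mul contDiffAt_id)
      (mul_ne_zero hb hs0))
  exact (h1.mul (h2.mul h3)).contDiffWithinAt

private theorem gb_nn (a b : ℕ) {s : ℝ} (hs : 0 < s) : 0 ≤ gb a b s := by
  unfold gb
  exact mul_nonneg (by positivity) (mul_nonneg (th_nn _) (th_nn _))

private theorem gb_le (a b : ℕ) {s : ℝ} (hs : 0 < s) : gb a b s ≤ (1 + s ^ a) * Real.exp (-s) := by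
  unfold gb
  have h1 : th (s / (b + 1)) * th (1 / ((b + 1) * s)) ≤ 1 :=
    mul_le_one₀ (th_le _) (th_nn _) (th_le _)
  have h2 : 0 ≤ (1 + s ^ a) * Real.exp (-s) := by positivity
  calc _ ≤ (1 + s ^ a) * Real.exp (-s) * 1 := mul_le_mul_of_nonneg_left h1 h2
    _ = _ := mul_one _

private theorem gb_supp (a b : ℕ) {s : ℝ} (hs : 0 < s) (h : gb a b s ≠ 0) :
    1 / (2 * ((b : ℝ) + 1)) ≤ s ∧ s ≤ 2 * ((b : ℝ) + 1) := by
  have hb : (0 : ℝ) < (b : ℝ) + 1 := by positivity
  constructor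
  · by_contra h1
    rw [not_le] at h1
    apply h
    have h2 : 2 ≤ 1 / (((b : ℝ) + 1) * s) := by
      rw [le_div_iff₀ (mul_pos hb hs)]
      rw [lt_div_iff₀ (by positivity)] at h1
      nlinarith
    unfold gb
    rw [th_zero h2]
    ring
  · by_contra h1
    rw [not_le] at h1
    apply h
    have h2 : 2 ≤ s / ((b : ℝ) + 1) := by
      rw [le_div_iff₀ hb]
      exact h1.le
    unfold gb
    rw [th_zero h2]
    ring

private theorem gb_eq (a b : ℕ) {s : ℝ} (hs : 0 < s) (h1 : s ≤ (b : ℝ) + 1)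
    (h2 : 1 ≤ ((b : ℝ) + 1) * s) : gb a b s = (1 + s ^ a) * Real.exp (-s) := by
  have hb : (0 : ℝ) < (b : ℝ) + 1 := by positivity
  unfold gb
  rw [th_one ((div_le_one hb).2 h1), th_one ((div_le_one (mul_pos hb hs)).2 h2)]
  ring

end cutoffs

section logs

variable {m p : ℕ}

private theorem ev_smooth (P : MvPolynomial (Fin m) ℂ) :
    ContDiff ℂ ∞ (fun z : Fin m → ℂ => ev P z) := by
  induction P using MvPolynomial.induction_on with
  | C a => simpa [ev] using contDiff_const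
  | add p q hp hq =>
    have : (fun z : Fin m → ℂ => ev (p + q) z) = fun z => ev p z + ev q z := by
      funext z
      simp [ev]
    rw [this]
    exact hp.add hq
  | mul_X p i hp =>
    have : (fun z : Fin m → ℂ => ev (p * MvPolynomial.X i) z) = fun z => ev p z * z i := by
      funext z
      simp [ev]
    rw [this]
    exact hp.mul (contDiff_apply ℂ ℂ i)

private theorem dz_sum (g : Fin p → (Fin m → ℂ) → ℂ) (z : Fin m → ℂ)
    (hg : ∀ i, DifferentiableAt ℝ (g i) z) (j : Fin m) :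
    dz j (fun z => ∑ i, g i z) z = ∑ i, dz j (g i) z ∧
      db j (fun z => ∑ i, g i z) z = ∑ i, db j (g i) z := by
  have h1 : HasFDerivAt (fun z => ∑ i, g i z) (∑ i, fderiv ℝ (g i) z) z :=
    HasFDerivAt.fun_sum fun i _ => (hg i).hasFDerivAt
  have e : ∀ v, fderiv ℝ (fun z => ∑ i, g i z) z v = ∑ i, fderiv ℝ (g i) z v := by
    intro v
    rw [h1.fderiv]
    simp only [FunLike.coe_sum, Finset.sum_apply]
  unfold dz db
  rw [e, e]
  constructor
  · rw [← Finset.sum_div, Finset.sum_sub_distrib, Finset.mul_sum]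
  · rw [← Finset.sum_div, Finset.sum_add_distrib, Finset.mul_sum]

/-- the derivative of the holomorphic function `f i` -/
private noncomputable def der (f : Fin p → (Fin m → ℂ) → ℂ) (i : Fin p) (j : Fin m)
    (z : Fin m → ℂ) : ℂ := fderiv ℂ (f i) z (Pi.single j 1)

private theorem der_smooth {f : Fin p → (Fin m → ℂ) → ℂ} (hf : ∀ i, ContDiff ℂ ∞ (f i))
    (i : Fin p) (j : Fin m) : ContDiff ℂ ∞ (der f i j) := by
  have h1 : ContDiff ℂ ∞ (fderiv ℂ (f i)) := (hf i).fderiv_right (m := ∞) (by norm_cast)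
  exact h1.clm_apply contDiff_const

private noncomputable def ssq (f : Fin p → (Fin m → ℂ) → ℂ) (z : Fin m → ℂ) : ℝ :=
  ∑ i, ‖f i z‖ ^ 2

private theorem ssq_smooth {f : Fin p → (Fin m → ℂ) → ℂ} (hf : ∀ i, ContDiff ℂ ∞ (f i)) :
    ContDiff ℝ ∞ (ssq f) := by
  unfold ssq
  refine ContDiff.sum fun i _ => ?_
  exact ((hf i).restrict_scalars ℝ).norm_sq ℝ

private theorem ssq_cf (f : Fin p → (Fin m → ℂ) → ℂ) :
    cf (ssq f) = fun z => ∑ i, f i z * star (f i z) := by
  funext z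
  unfold cf ssq
  rw [Complex.ofReal_sum]
  refine Finset.sum_congr rfl fun i _ => ?_
  rw [Complex.star_def, Complex.mul_conj, Complex.normSq_eq_norm_sq]

private theorem star_diff {g : (Fin m → ℂ) → ℂ} {z : Fin m → ℂ} (hg : DifferentiableAt ℝ g z) :
    DifferentiableAt ℝ (fun z => star (g z)) z :=
  (Complex.conjCLE.differentiableAt).comp z hg

private theorem d_ssq (hCAL : StCAL) {f : Fin p → (Fin m → ℂ) → ℂ}
    (hf : ∀ i, ContDiff ℂ ∞ (f i)) (z : Fin m → ℂ) (j : Fin m) :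
    dz j (cf (ssq f)) z = ∑ i, der f i j z * star (f i z) ∧
      db j (cf (ssq f)) z = ∑ i, f i z * star (der f i j z) := by
  have hd : ∀ i, DifferentiableAt ℂ (f i) z := fun i => (hf i).differentiable (by simp) z
  have hr : ∀ i, DifferentiableAt ℝ (f i) z := fun i => (hd i).restrictScalars ℝ
  have hs : ∀ i, DifferentiableAt ℝ (fun z => star (f i z)) z := fun i => star_diff (hr i)
  have hm : ∀ i, DifferentiableAt ℝ (fun z => f i z * star (f i z)) z := fun i =>
    (hr i).mul (hs i)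
  rw [ssq_cf, (dz_sum _ z hm j).1, (dz_sum _ z hm j).2]
  constructor
  · refine Finset.sum_congr rfl fun i _ => ?_
    have c1 := ((hCAL m j j (f i) (fun z => star (f i z)) z).1 (hr i) (hs i)).2.2.1
    have c2 := ((hCAL m j j (f i) (f i) z).1 (hr i) (hr i)).2.2.2.2.1
    have c3 := (hCAL m j j (f i) (f i) z).2.2.1 (hd i)
    rw [c1, c2, c3.1, c3.2, star_zero, mul_zero, add_zero]
    rfl
  · refine Finset.sum_congr rfl fun i _ => ?_
    have c1 := ((hCAL m j j (f i) (fun z => star (f i z)) z).1 (hr i) (hs i)).2.2.2.1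
    have c2 := ((hCAL m j j (f i) (f i) z).1 (hr i) (hr i)).2.2.2.2.2.1
    have c3 := (hCAL m j j (f i) (f i) z).2.2.1 (hd i)
    rw [c1, c2, c3.1, c3.2, zero_mul, zero_add]
    rfl

/-- logarithm of a sum of squares -/
private noncomputable def ls (f : Fin p → (Fin m → ℂ) → ℂ) (x : Fin m → ℂ) : ℝ :=
  Real.log (ssq f x)

private theorem hes_ls (hCAL : StCAL) {f : Fin p → (Fin m → ℂ) → ℂ}
    (hf : ∀ i, ContDiff ℂ ∞ (f i)) (z : Fin m → ℂ) (hz : 0 < ssq f z) (j k : Fin m) :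
    hes (ls f) z j k = ((-((ssq f z) ^ 2)⁻¹ : ℝ) : ℂ) * (∑ i, der f i j z * star (f i z)) *
        (∑ i, f i z * star (der f i k z)) +
      (((ssq f z)⁻¹ : ℝ) : ℂ) * ∑ i, der f i j z * star (der f i k z) := by
  have hS : ∀ z, DifferentiableAt ℝ (ssq f) z := fun z => (ssq_smooth hf).differentiable (by simp) z
  have hSc : Continuous (ssq f) := (ssq_smooth hf).continuous
  have h1 : db k (cf (ls f)) =ᶠ[𝓝 z] fun z => cf (fun x => (ssq f x)⁻¹) z *
      ∑ i, f i z * star (der f i k z) := by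
    filter_upwards [hSc.continuousAt.eventually (lt_mem_nhds hz)] with y hy
    have h5 := Helper22.KP.comp_db (f := Real.log) (hS y)
      (Real.differentiableAt_log (ne_of_gt hy)) k
    rw [(d_ssq hCAL hf y k).2, Real.deriv_log] at h5
    exact h5
  show dz j (db k (cf (ls f))) z = _
  rw [Helper22.KP.dz_congr h1]
  have h2 : DifferentiableAt ℝ (fun s : ℝ => s⁻¹) (ssq f z) := differentiableAt_inv (ne_of_gt hz)
  have hk1d : DifferentiableAt ℝ (cf (fun x => (ssq f x)⁻¹)) z :=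
    Helper22.KP.cf_diff ((hS z).fun_inv (ne_of_gt hz))
  have hd : ∀ i, DifferentiableAt ℂ (f i) z := fun i => (hf i).differentiable (by simp) z
  have hr : ∀ i, DifferentiableAt ℝ (f i) z := fun i => (hd i).restrictScalars ℝ
  have hda : ∀ i, DifferentiableAt ℂ (der f i k) z := fun i =>
    (der_smooth hf i k).differentiable (by simp) z
  have hra : ∀ i, DifferentiableAt ℝ (der f i k) z := fun i => (hda i).restrictScalars ℝ
  have hsa : ∀ i, DifferentiableAt ℝ (fun z => star (der f i k z)) z := fun i =>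
    star_diff (hra i)
  have hm : ∀ i, DifferentiableAt ℝ (fun z => f i z * star (der f i k z)) z := fun i =>
    (hr i).mul (hsa i)
  have hq : DifferentiableAt ℝ (fun z => ∑ i, f i z * star (der f i k z)) z :=
    DifferentiableAt.fun_sum fun i _ => hm i
  have c0 := ((hCAL m j j (cf (fun x => (ssq f x)⁻¹))
    (fun z => ∑ i, f i z * star (der f i k z)) z).1 hk1d hq).2.2.1
  have c9 := Helper22.KP.comp_dz (f := fun s : ℝ => s⁻¹) (hS z) h2 j
  rw [c0, c9, (d_ssq hCAL hf z j).1, (dz_sum _ z hm j).1]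
  have c1 : ∀ i, dz j (fun z => f i z * star (der f i k z)) z
      = der f i j z * star (der f i k z) := by
    intro i
    have d1 := ((hCAL m j j (f i) (fun z => star (der f i k z)) z).1 (hr i) (hsa i)).2.2.1
    have d2 := ((hCAL m j j (der f i k) (der f i k) z).1 (hra i) (hra i)).2.2.2.2.1
    have d3 := (hCAL m j j (der f i k) (der f i k) z).2.2.1 (hda i)
    have d4 := (hCAL m j j (f i) (f i) z).2.2.1 (hd i)
    rw [d1, d2, d3.1, d4.2, star_zero, mul_zero, add_zero]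
    rfl
  rw [Finset.sum_congr rfl fun i _ => c1 i, deriv_inv]
  rfl

private theorem sum4 {n q : ℕ} (h : Fin m → Fin n → Fin p → Fin q → ℂ) :
    ∑ j, ∑ k, ∑ i, ∑ l, h j k i l = ∑ i, ∑ l, ∑ k, ∑ j, h j k i l := by
  calc ∑ j, ∑ k, ∑ i, ∑ l, h j k i l = ∑ k, ∑ j, ∑ i, ∑ l, h j k i l := Finset.sum_comm
    _ = ∑ k, ∑ i, ∑ j, ∑ l, h j k i l := Finset.sum_congr rfl fun k _ => Finset.sum_comm
    _ = ∑ k, ∑ i, ∑ l, ∑ j, h j k i l := Finset.sum_congr rfl fun k _ =>
        Finset.sum_congr rfl fun i _ => Finset.sum_comm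
    _ = ∑ i, ∑ k, ∑ l, ∑ j, h j k i l := Finset.sum_comm
    _ = ∑ i, ∑ l, ∑ k, ∑ j, h j k i l := Finset.sum_congr rfl fun i _ => Finset.sum_comm

/-- the trace of the Hessian of `log ∑ |f i|²` against a positive matrix is nonnegative -/
private theorem tr_ls (hCAL : StCAL) {f : Fin p → (Fin m → ℂ) → ℂ}
    (hf : ∀ i, ContDiff ℂ ∞ (f i)) (z : Fin m → ℂ) (hz : 0 < ssq f z)
    (A : Matrix (Fin m) (Fin m) ℂ)
    (hA : ∀ b : Fin m → ℂ, 0 ≤ (∑ k, ∑ j, A k j * b k * star (b j)).re) :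
    0 ≤ (∑ j, ∑ k, A k j * hes (ls f) z j k).re := by
  set S := ssq f z with hS
  set D : Fin p → Fin m → ℂ := fun i j => der f i j z with hD
  set g : Fin p → ℂ := fun i => f i z with hg
  set b : Fin p → Fin p → Fin m → ℂ := fun i l k => star (g i * D l k - g l * D i k) with hb
  have hSc : ((S : ℝ) : ℂ) = ∑ i, g i * star (g i) := by
    have := congrFun (ssq_cf f) z
    exact this
  have key : ∀ j k, hes (ls f) z j k =
      ((1 / (2 * S ^ 2) : ℝ) : ℂ) * ∑ i, ∑ l, b i l k * star (b i l j) := by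
    intro j k
    rw [hes_ls hCAL hf z hz j k]
    have e1 : ∑ i, ∑ l, b i l k * star (b i l j) =
        2 * ((∑ i, g i * star (g i)) * ∑ l, D l j * star (D l k)) -
          2 * ((∑ i, g i * star (D i k)) * ∑ l, D l j * star (g l)) := by
      have a1 : (∑ i, g i * star (g i)) * ∑ l, D l j * star (D l k) =
          ∑ i, ∑ l, (g i * star (g i)) * (D l j * star (D l k)) := Finset.sum_mul_sum _ _ _ _
      have a2 : (∑ i, g i * star (g i)) * ∑ l, D l j * star (D l k) =
          ∑ i, ∑ l, (g l * star (g l)) * (D i j * star (D i k)) := by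
        rw [a1, Finset.sum_comm]
      have a3 : (∑ i, g i * star (D i k)) * ∑ l, D l j * star (g l) =
          ∑ i, ∑ l, (g i * star (D i k)) * (D l j * star (g l)) := Finset.sum_mul_sum _ _ _ _
      have a4 : (∑ i, g i * star (D i k)) * ∑ l, D l j * star (g l) =
          ∑ i, ∑ l, (g l * star (D l k)) * (D i j * star (g i)) := by
        rw [a3, Finset.sum_comm]
      rw [two_mul, two_mul]
      nth_rewrite 1 [a1]
      rw [a2]
      nth_rewrite 1 [a3]
      rw [a4]
      rw [← Finset.sum_add_distrib, ← Finset.sum_add_distrib, ← Finset.sum_sub_distrib]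
      refine Finset.sum_congr rfl fun i _ => ?_
      rw [← Finset.sum_add_distrib, ← Finset.sum_add_distrib, ← Finset.sum_sub_distrib]
      refine Finset.sum_congr rfl fun l _ => ?_
      simp only [hb, star_star, star_sub, star_mul']
      ring
    rw [e1, ← hSc]
    have hS0 : ((S : ℝ) : ℂ) ≠ 0 := by
      exact_mod_cast (ne_of_gt hz)
    show ((-(S ^ 2)⁻¹ : ℝ) : ℂ) * (∑ i, D i j * star (g i)) * (∑ i, g i * star (D i k)) +
      ((S⁻¹ : ℝ) : ℂ) * ∑ i, D i j * star (D i k) = _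
    push_cast
    field_simp
    ring
  have e2 : ∑ j, ∑ k, A k j * hes (ls f) z j k =
      ((1 / (2 * S ^ 2) : ℝ) : ℂ) * ∑ i, ∑ l, ∑ k, ∑ j, A k j * b i l k * star (b i l j) := by
    have e3 : ∀ j k, A k j * hes (ls f) z j k =
        ((1 / (2 * S ^ 2) : ℝ) : ℂ) * ∑ i, ∑ l, A k j * b i l k * star (b i l j) := by
      intro j k
      rw [key j k, mul_left_comm, Finset.mul_sum]
      congr 1
      refine Finset.sum_congr rfl fun i _ => ?_
      rw [Finset.mul_sum]
      refine Finset.sum_congr rfl fun l _ => ?_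
      ring
    rw [← sum4 (fun j k i l => A k j * b i l k * star (b i l j))]
    simp only [e3]
    simp only [← Finset.mul_sum]
  rw [e2, Complex.re_ofReal_mul]
  refine mul_nonneg (by positivity) ?_
  rw [Complex.re_sum]
  refine Finset.sum_nonneg fun i _ => ?_
  rw [Complex.re_sum]
  exact Finset.sum_nonneg fun l _ => hA (b i l)

/-- linearity of the Hessian -/
private theorem hes_lin {U : Set (Fin m → ℂ)} (hU : IsOpen U) (a φ : (Fin m → ℂ) → ℝ)
    (ha : ContDiffOn ℝ ∞ a U) (hφ : ContDiffOn ℝ ∞ φ U) (s : ℝ) (z : Fin m → ℂ) (hz : z ∈ U) :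
    hes (fun z => a z + s * φ z) z = hes a z + (s : ℂ) • hes φ z := by
  have hca := Helper19.KP.stk_cf a ha
  have hcφ := Helper19.KP.stk_cf φ hφ
  have dif : ∀ (f : (Fin m → ℂ) → ℂ), ContDiffOn ℝ ∞ f U → ∀ w ∈ U, DifferentiableAt ℝ f w :=
    fun f hf w hw => (hf.contDiffAt (hU.mem_nhds hw)).differentiableAt (by simp)
  ext j k
  show dz j (db k (cf fun z => a z + s * φ z)) z
    = dz j (db k (cf a)) z + (s : ℂ) * dz j (db k (cf φ)) z
  have hcf : cf (fun z => a z + s * φ z) = fun w => cf a w + (s : ℂ) * cf φ w := by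
    funext w
    simp [cf]
  have e : db k (cf fun z => a z + s * φ z) =ᶠ[𝓝 z]
      fun w => db k (cf a) w + (s : ℂ) * db k (cf φ) w := by
    filter_upwards [hU.mem_nhds hz] with w hw
    rw [hcf, Helper19.KP.stk_db_lin k _ _ _ w (dif _ hca w hw) (dif _ hcφ w hw)]
  rw [Helper19.KP.stk_dz_congr j _ _ z e,
    Helper19.KP.stk_dz_lin j _ _ _ z (dif _ (Helper19.KP.stk_cdb hU k _ hca) z hz)
    (dif _ (Helper19.KP.stk_cdb hU k _ hcφ) z hz)]

/-- Hessian of the logarithm -/
private theorem hes_log (hCAL : StCAL) {U : Set (Fin m → ℂ)} (hU : IsOpen U)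
    {u : (Fin m → ℂ) → ℝ} (hu : ContDiffOn ℝ ∞ u U) (hp : ∀ z ∈ U, 0 < u z) {z : Fin m → ℂ}
    (hz : z ∈ U) (j k : Fin m) :
    hes (fun x => Real.log (u x)) z j k = (((u z)⁻¹ : ℝ) : ℂ) * hes u z j k -
      ((((u z) ^ 2)⁻¹ : ℝ) : ℂ) * (dz j (cf u) z * db k (cf u) z) := by
  have hd : ∀ x ∈ U, DifferentiableAt ℝ u x := fun x hx =>
    (hu.contDiffAt (hU.mem_nhds hx)).differentiableAt (by simp)
  have h1 : db k (cf fun x => Real.log (u x)) =ᶠ[𝓝 z] fun x => cf (fun x => (u x)⁻¹) x *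
      db k (cf u) x := by
    filter_upwards [hU.mem_nhds hz] with y hy
    have h5 := Helper22.KP.comp_db (f := Real.log) (hd y hy)
      (Real.differentiableAt_log (ne_of_gt (hp y hy))) k
    rw [Real.deriv_log] at h5
    exact h5
  show dz j (db k (cf fun x => Real.log (u x))) z = _
  rw [Helper22.KP.dz_congr h1]
  have h2 : DifferentiableAt ℝ (fun s : ℝ => s⁻¹) (u z) := differentiableAt_inv (ne_of_gt (hp z hz))
  have h3 : DifferentiableAt ℝ (cf (fun x => (u x)⁻¹)) z :=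
    Helper22.KP.cf_diff ((hd z hz).fun_inv (ne_of_gt (hp z hz)))
  have h4 : DifferentiableAt ℝ (db k (cf u)) z :=
    ((Helper19.KP.stk_cdb hU k _ (Helper19.KP.stk_cf u hu)).contDiffAt
      (hU.mem_nhds hz)).differentiableAt (by simp)
  have c0 := ((hCAL m j j (cf (fun x => (u x)⁻¹)) (db k (cf u)) z).1 h3 h4).2.2.1
  have c9 := Helper22.KP.comp_dz (f := fun s : ℝ => s⁻¹) (hd z hz) h2 j
  rw [c0, c9, deriv_inv]
  show _ = (((u z)⁻¹ : ℝ) : ℂ) * dz j (db k (cf u)) z - _
  simp only [cf]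
  push_cast
  ring

end logs

section cone

variable {C : Cone}

private theorem U_open (C : Cone) : IsOpen C.U :=
  (isOpen_ne (x := (0 : ℂ))).preimage (MvPolynomial.continuous_eval C.Δ)

private theorem u_pos (hC : Good C) {z : Fin C.m → ℂ} (hz : z ∈ C.U) : 0 < C.u z := by
  obtain ⟨a, b, ha, hab⟩ := hC.ubd
  exact (mul_pos ha (hC.Xpos z hz)).trans_le (hab z hz).1

/-- bounds of the functions on the orbit -/
private theorem bd2 (hC : Good C) (k : ℕ) (f : MvPolynomial (Fin C.m) ℂ) (hf : f ∈ C.R k) :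
    ∃ K : ℝ, 0 < K ∧ ∀ z ∈ C.U, ‖ev f z‖ ^ 2 ≤ K * C.u z ^ (2 * k) := by
  obtain ⟨a, b, ha, hab⟩ := hC.ubd
  obtain ⟨B, hB⟩ := hC.bdd k f hf
  refine ⟨((|B| + 1) / a ^ k) ^ 2, by positivity, fun z hz => ?_⟩
  have h0 : 0 ≤ C.sz z := (hC.Xpos z hz).le
  have h1 : C.sz z ≤ C.u z / a := by
    rw [le_div_iff₀ ha, mul_comm]
    exact (hab z hz).1
  have h2 : ‖ev f z‖ ≤ (|B| + 1) * (C.u z / a) ^ k := by
    calc ‖ev f z‖ ≤ B * C.sz z ^ k := hB z
      _ ≤ (|B| + 1) * C.sz z ^ k :=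
        mul_le_mul_of_nonneg_right ((le_abs_self B).trans (by linarith)) (pow_nonneg h0 k)
      _ ≤ (|B| + 1) * (C.u z / a) ^ k :=
        mul_le_mul_of_nonneg_left (pow_le_pow_left₀ h0 h1 k) (by positivity)
  calc ‖ev f z‖ ^ 2 ≤ ((|B| + 1) * (C.u z / a) ^ k) ^ 2 :=
        pow_le_pow_left₀ (norm_nonneg _) h2 2
    _ = ((|B| + 1) / a ^ k) ^ 2 * C.u z ^ (2 * k) := by
      rw [div_pow, mul_comm 2 k, pow_mul (C.u z)]
      ring

/-- `p₁` as a family -/
private noncomputable def pf (C : Cone) : Fin 1 → (Fin C.m → ℂ) → ℂ := fun _ z => ev C.p₁ z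

/-- `Q` as a family -/
private noncomputable def qf (C : Cone) : Fin C.nq → (Fin C.m → ℂ) → ℂ := fun i z => ev (C.Q i) z

private theorem pf_smooth (C : Cone) (i : Fin 1) : ContDiff ℂ ∞ (pf C i) := ev_smooth C.p₁

private theorem qf_smooth (C : Cone) (i : Fin C.nq) : ContDiff ℂ ∞ (qf C i) := ev_smooth (C.Q i)

private theorem ssq_pf (z : Fin C.m → ℂ) : ssq (pf C) z = ‖ev C.p₁ z‖ ^ 2 := by
  simp [ssq, pf]

private theorem sp_pos (hC : Good C) {z : Fin C.m → ℂ} (hz : z ∈ C.U) : 0 < ssq (pf C) z := by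
  rw [ssq_pf]
  exact pow_pos (norm_pos_iff.2 (hC.p10 z hz)) 2

private theorem sq_pos' (hC : Good C) {z : Fin C.m → ℂ} (hz : z ∈ C.U) : 0 < ssq (qf C) z := by
  obtain ⟨i, hi⟩ := hC.Q0 z hz
  refine Finset.sum_pos' (fun i _ => by positivity) ⟨i, Finset.mem_univ _, ?_⟩
  exact pow_pos (norm_pos_iff.2 hi) 2

private theorem bdp (hC : Good C) : ∃ K : ℝ, 0 < K ∧ ∀ z ∈ C.U,
    ssq (pf C) z ≤ K * C.u z ^ (2 * C.d₁) := by
  obtain ⟨K, hK, h⟩ := bd2 hC C.d₁ C.p₁ hC.p1R
  exact ⟨K, hK, fun z hz => by rw [ssq_pf]; exact h z hz⟩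

private theorem bdq (hC : Good C) : ∃ K : ℝ, 0 < K ∧ ∀ z ∈ C.U,
    ssq (qf C) z ≤ K * C.u z ^ (2 * C.dq) := by
  choose K hK h using fun i => bd2 hC C.dq (C.Q i) (hC.QR i)
  refine ⟨∑ i, K i + 1, by
    have : 0 ≤ ∑ i, K i := Finset.sum_nonneg fun i _ => (hK i).le
    linarith, fun z hz => ?_⟩
  have h1 : ssq (qf C) z ≤ ∑ i, K i * C.u z ^ (2 * C.dq) :=
    Finset.sum_le_sum fun i _ => h i z hz
  rw [← Finset.sum_mul] at h1
  have h2 : 0 ≤ C.u z ^ (2 * C.dq) := pow_nonneg (u_pos hC hz).le _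
  rw [add_mul]
  linarith

private theorem log_bd {s K x : ℝ} {k : ℕ} (hs : 0 < s) (hK : 0 < K) (hx : 0 < x)
    (h : s ≤ K * x ^ k) : Real.log s ≤ Real.log K + k * Real.log x := by
  have h1 := Real.log_le_log hs h
  rwa [Real.log_mul (ne_of_gt hK) (ne_of_gt (pow_pos hx k)), Real.log_pow] at h1

private noncomputable def MM (C : Cone) : ℝ := 2 * C.d₁ + 2 * C.dq

private theorem MM_nn (C : Cone) : 0 ≤ MM C := by
  unfold MM
  positivity

private theorem vv_eq (C : Cone) : C.vv = fun z =>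
    (((0 : ℝ) + MM C * Real.log (C.u z)) + (-1) * ls (pf C) z) + (-1) * ls (qf C) z := by
  funext z
  unfold Cone.vv ls MM
  rw [ssq_pf]
  have : ssq (qf C) z = ∑ i, ‖ev (C.Q i) z‖ ^ 2 := rfl
  rw [this]
  ring

private theorem vv_ge (hC : Good C) : ∃ c₀ : ℝ, ∀ z ∈ C.U, -c₀ ≤ C.vv z := by
  obtain ⟨K, hK, hp⟩ := bdp hC
  obtain ⟨L, hL, hq⟩ := bdq hC
  refine ⟨Real.log K + Real.log L, fun z hz => ?_⟩
  have h1 := log_bd (sp_pos hC hz) hK (u_pos hC hz) (hp z hz)
  have h2 := log_bd (sq_pos' hC hz) hL (u_pos hC hz) (hq z hz)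
  rw [vv_eq]
  simp only [ls, MM]
  push_cast at h1 h2
  linarith

private theorem ls_smooth {m p : ℕ} {f : Fin p → (Fin m → ℂ) → ℂ}
    (hf : ∀ i, ContDiff ℂ ∞ (f i)) {U : Set (Fin m → ℂ)} (hU : ∀ z ∈ U, 0 < ssq f z) :
    ContDiffOn ℝ ∞ (ls f) U :=
  (ssq_smooth hf).contDiffOn.log fun z hz => (hU z hz).ne'

private theorem lu_smooth (hC : Good C) : ContDiffOn ℝ ∞ (fun z => Real.log (C.u z)) C.U :=
  hC.usm.log fun _ hz => (u_pos hC hz).ne'

private theorem vv_smooth (hC : Good C) : ContDiffOn ℝ ∞ C.vv C.U := by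
  rw [vv_eq]
  exact ((contDiffOn_const.add (contDiffOn_const.mul (lu_smooth hC))).add
    (contDiffOn_const.mul (ls_smooth (pf_smooth C) fun z hz => sp_pos hC hz))).add
    (contDiffOn_const.mul (ls_smooth (qf_smooth C) fun z hz => sq_pos' hC hz))

private theorem vv_inv (hC : Good C) : ∀ z ∈ C.U, ∀ c : ℂ, c ≠ 0 →
    C.vv (scl C.w c z) = C.vv z := by
  intro z hz c hc
  have hc0 : 0 < ‖c‖ := norm_pos_iff.2 hc
  have e1 : ssq (pf C) (scl C.w c z) = ‖c‖ ^ (2 * C.d₁) * ssq (pf C) z := by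
    rw [ssq_pf, ssq_pf, hC.hom C.d₁ C.p₁ hC.p1R c z, norm_mul, norm_pow]
    ring
  have e2 : ssq (qf C) (scl C.w c z) = ‖c‖ ^ (2 * C.dq) * ssq (qf C) z := by
    unfold ssq
    rw [Finset.mul_sum]
    refine Finset.sum_congr rfl fun i _ => ?_
    unfold qf
    rw [hC.hom C.dq (C.Q i) (hC.QR i) c z, norm_mul, norm_pow]
    ring
  rw [vv_eq]
  simp only [ls]
  rw [hC.uhom z hz c hc, e1, e2, Real.log_mul hc0.ne' (u_pos hC hz).ne',
    Real.log_mul (pow_pos hc0 _).ne' (sp_pos hC hz).ne',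
    Real.log_mul (pow_pos hc0 _).ne' (sq_pos' hC hz).ne', Real.log_pow, Real.log_pow]
  unfold MM
  push_cast
  ring

private theorem cpt2 (hC : Good C) {s₁ s₂ t : ℝ} (h1 : 0 < s₁) : ∃ K, IsCompact K ∧ K ⊆ C.U ∧
    ∀ z ∈ C.U, s₁ ≤ C.u z → C.u z ≤ s₂ → C.vv z ≤ t → z ∈ K := by
  obtain ⟨a, b, ha, hab⟩ := hC.ubd
  obtain ⟨K, hK, hp⟩ := bdp hC
  obtain ⟨L, hL, hq⟩ := bdq hC
  set s := max s₁ s₂ with hs
  have hs0 : 0 < s := h1.trans_le (le_max_left _ _)
  set L1 := MM C * Real.log s₁ - t - (Real.log L + (2 * C.dq : ℕ) * Real.log s) with hL1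
  set L2 := MM C * Real.log s₁ - t - (Real.log K + (2 * C.d₁ : ℕ) * Real.log s) with hL2
  set δ := min (Real.sqrt (Real.exp L1)) (Real.sqrt (Real.exp L2)) with hδ
  have hδ0 : 0 < δ := lt_min (Real.sqrt_pos.2 (Real.exp_pos _)) (Real.sqrt_pos.2 (Real.exp_pos _))
  refine ⟨_, hC.cpt (s / a) δ hδ0, fun _ hz => hz.1, fun z hz a1 a2 a3 => ?_⟩
  have hu0 := u_pos hC hz
  have hus : C.u z ≤ s := a2.trans (le_max_right _ _)
  have b1 : Real.log (C.u z) ≤ Real.log s := Real.log_le_log hu0 hus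
  have b2 : Real.log s₁ ≤ Real.log (C.u z) := Real.log_le_log h1 a1
  have b3 := mul_le_mul_of_nonneg_left b2 (MM_nn C)
  have c1 := log_bd (sp_pos hC hz) hK hu0 (hp z hz)
  have c2 := log_bd (sq_pos' hC hz) hL hu0 (hq z hz)
  have c3 := mul_le_mul_of_nonneg_left b1 (Nat.cast_nonneg (α := ℝ) (2 * C.d₁))
  have c4 := mul_le_mul_of_nonneg_left b1 (Nat.cast_nonneg (α := ℝ) (2 * C.dq))
  rw [vv_eq] at a3
  simp only [ls] at a3
  have d1 : L1 ≤ Real.log (ssq (pf C) z) := by
    rw [hL1]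
    linarith
  have d2 : L2 ≤ Real.log (ssq (qf C) z) := by
    rw [hL2]
    linarith
  rw [Real.le_log_iff_exp_le (sp_pos hC hz)] at d1
  rw [Real.le_log_iff_exp_le (sq_pos' hC hz)] at d2
  refine ⟨hz, ?_, ?_, ?_⟩
  · rw [le_div_iff₀ ha, mul_comm]
    exact (hab z hz).1.trans hus
  · refine (min_le_left _ _).trans ?_
    have h := Real.sqrt_le_sqrt d1
    rwa [ssq_pf, Real.sqrt_sq (norm_nonneg _)] at h
  · refine (min_le_right _ _).trans ?_
    have hT : 0 ≤ ∑ i, ‖ev (C.Q i) z‖ := Finset.sum_nonneg fun i _ => norm_nonneg _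
    have h3 : ssq (qf C) z ≤ (∑ i, ‖ev (C.Q i) z‖) ^ 2 := by
      unfold ssq
      rw [pow_two, Finset.sum_mul]
      refine Finset.sum_le_sum fun i _ => ?_
      rw [pow_two]
      exact mul_le_mul_of_nonneg_left (Finset.single_le_sum
        (f := fun i => ‖ev (C.Q i) z‖) (fun i _ => norm_nonneg _) (Finset.mem_univ i))
        (norm_nonneg _)
    have h := Real.sqrt_le_sqrt (d2.trans h3)
    rwa [Real.sqrt_sq hT] at h

/-- bound of the trace -/
private theorem tr_vv (hCAL : StCAL) (hEUL : StEUL) (hCSD : StCSD) (hC : Good C)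
    {z : Fin C.m → ℂ} (hz : z ∈ C.U) :
    (∑ j, ∑ k, (hes C.u z).adjugate k j * hes C.vv z j k).re ≤
      MM C * ((C.m - 1 : ℝ) * ‖ev C.J z‖ ^ 2 / C.u z) := by
  set A := (hes C.u z).adjugate with hA
  have hUo := U_open C
  have hu0 := u_pos hC hz
  have hpos : ∀ b : Fin C.m → ℂ, 0 ≤ (∑ k, ∑ j, A k j * b k * star (b j)).re := fun b =>
    (hCSD C hC z hz b).1
  have s1 := lu_smooth hC
  have s2 := ls_smooth (pf_smooth C) (U := C.U) fun z hz => sp_pos hC hz
  have s3 := ls_smooth (qf_smooth C) (U := C.U) fun z hz => sq_pos' hC hz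
  have s0 : ContDiffOn ℝ ∞ (fun _ : Fin C.m → ℂ => (0 : ℝ)) C.U := contDiffOn_const
  have s4 : ContDiffOn ℝ ∞ (fun z => (0 : ℝ) + MM C * Real.log (C.u z)) C.U :=
    s0.add (contDiffOn_const.mul s1)
  have s5 : ContDiffOn ℝ ∞
      (fun z => ((0 : ℝ) + MM C * Real.log (C.u z)) + (-1) * ls (pf C) z) C.U :=
    s4.add (contDiffOn_const.mul s2)
  have h0 : hes (fun _ : Fin C.m → ℂ => (0 : ℝ)) z = 0 := by
    ext j k
    have e0 : cf (fun _ : Fin C.m → ℂ => (0 : ℝ)) = fun _ => 0 := by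
      funext x
      simp [cf]
    have e1 : db k (fun _ : Fin C.m → ℂ => (0 : ℂ)) = fun _ => 0 :=
      funext fun x => Helper19.KP.stk_db_const k 0 x
    show dz j (db k (cf fun _ => 0)) z = 0
    rw [e0, e1]
    exact Helper19.KP.stk_dz_const j 0 z
  have hh : ∀ j k, hes C.vv z j k = (MM C : ℂ) * hes (fun x => Real.log (C.u x)) z j k -
      hes (ls (pf C)) z j k - hes (ls (qf C)) z j k := by
    intro j k
    rw [vv_eq, hes_lin hUo _ _ s5 s3 (-1) z hz, hes_lin hUo _ _ s4 s2 (-1) z hz,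
      hes_lin hUo _ _ s0 s1 (MM C) z hz, h0]
    simp only [Matrix.add_apply, Matrix.smul_apply, Matrix.zero_apply, smul_eq_mul]
    push_cast
    ring
  obtain ⟨E1, E2, E3, E4, -⟩ := hEUL C hC z hz
  have hdet := (hC.uhes z hz).2
  have t1 : ∑ j, ∑ k, A k j * hes C.u z j k = (C.m : ℂ) * ((‖ev C.J z‖ ^ 2 : ℝ) : ℂ) := by
    rw [Finset.sum_comm]
    have e1 : ∀ k, ∑ j, A k j * hes C.u z j k = (hes C.u z).det := by
      intro k
      have e2 : (A * hes C.u z) k k = ((hes C.u z).det • (1 : Matrix (Fin C.m) (Fin C.m) ℂ)) k k :=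
        by rw [hA, Matrix.adjugate_mul]
      rw [Matrix.mul_apply] at e2
      rw [e2]
      simp
    rw [Finset.sum_congr rfl fun k _ => e1 k, hdet]
    simp
  have t2 : ∑ j, ∑ k, A k j * (dz j (cf C.u) z * db k (cf C.u) z) =
      (C.u z : ℂ) * ((‖ev C.J z‖ ^ 2 : ℝ) : ℂ) := by
    have e1 : ∀ j, ∑ k, A k j * (dz j (cf C.u) z * db k (cf C.u) z) =
        2 * (hes C.u z).det * ((C.w j : ℂ) * z j * dz j (cf C.u) z) := by
      intro j
      have e2 : ∑ k, A k j * (dz j (cf C.u) z * db k (cf C.u) z) =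
          dz j (cf C.u) z * ∑ k, A k j * db k (cf C.u) z := by
        rw [Finset.mul_sum]
        exact Finset.sum_congr rfl fun k _ => by ring
      rw [e2, hA, E4 j]
      ring
    rw [Finset.sum_congr rfl fun j _ => e1 j, ← Finset.mul_sum, E1, hdet]
    ring
  have t3 : ∑ j, ∑ k, A k j * hes (fun x => Real.log (C.u x)) z j k =
      (((C.m - 1 : ℝ) * ‖ev C.J z‖ ^ 2 / C.u z : ℝ) : ℂ) := by
    have e1 : ∀ j k, A k j * hes (fun x => Real.log (C.u x)) z j k =
        (((C.u z)⁻¹ : ℝ) : ℂ) * (A k j * hes C.u z j k) -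
          ((((C.u z) ^ 2)⁻¹ : ℝ) : ℂ) * (A k j * (dz j (cf C.u) z * db k (cf C.u) z)) := by
      intro j k
      rw [hes_log hCAL hUo hC.usm (fun z hz => u_pos hC hz) hz j k]
      ring
    simp only [e1, Finset.sum_sub_distrib, ← Finset.mul_sum]
    rw [t1, t2]
    have hu0' : (C.u z : ℂ) ≠ 0 := by exact_mod_cast hu0.ne'
    push_cast
    field_simp
  have t4 := tr_ls hCAL (pf_smooth C) z (sp_pos hC hz) A hpos
  have t5 := tr_ls hCAL (qf_smooth C) z (sq_pos' hC hz) A hpos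
  have t6 : ∑ j, ∑ k, A k j * hes C.vv z j k =
      (MM C : ℂ) * ∑ j, ∑ k, A k j * hes (fun x => Real.log (C.u x)) z j k -
        ∑ j, ∑ k, A k j * hes (ls (pf C)) z j k - ∑ j, ∑ k, A k j * hes (ls (qf C)) z j k := by
    rw [Finset.mul_sum, ← Finset.sum_sub_distrib, ← Finset.sum_sub_distrib]
    refine Finset.sum_congr rfl fun j _ => ?_
    rw [Finset.mul_sum, ← Finset.sum_sub_distrib, ← Finset.sum_sub_distrib]
    refine Finset.sum_congr rfl fun k _ => ?_
    rw [hh j k]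
    ring
  rw [t6, t3, Complex.sub_re, Complex.sub_re, ← Complex.ofReal_mul, Complex.ofReal_re]
  linarith

private theorem int_K {m : ℕ} {E : Type*} [NormedAddCommGroup E] {U K : Set (Fin m → ℂ)}
    (hU : IsOpen U) (hK : IsCompact K) (hKU : K ⊆ U) {f : (Fin m → ℂ) → E}
    (hf : ContinuousOn f U) (h0 : ∀ z ∈ U, z ∉ K → f z = 0) : IntegrableOn f U :=
  ((hf.mono hKU).integrableOn_compact hK).of_forall_sdiff_eq_zero hU.measurableSet
    fun z hz => h0 z hz.1 hz.2

/-- the weight against which the trace is integrated -/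
private theorem int_wt (hMOM : StMOM) (hC : Good C) (a : ℕ) :
    IntegrableOn (fun z => (1 + C.u z ^ a) * Real.exp (-C.u z) * (‖ev C.J z‖ ^ 2 / C.u z)) C.U := by
  obtain ⟨h1, h2, -⟩ := hMOM C hC
  cases a with
  | zero =>
    have h3 : IntegrableOn (fun z => 2 * ((C.u z)⁻¹ * Real.exp (-C.u z) * ‖ev C.J z‖ ^ 2)) C.U :=
      h2.const_mul 2
    refine h3.congr_fun (fun z _ => ?_) (U_open C).measurableSet
    simp only [pow_zero]
    ring
  | succ n =>
    refine (h2.add (h1 n).1).congr_fun (fun z hz => ?_) (U_open C).measurableSet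
    have hu := (u_pos hC hz).ne'
    simp only [Pi.add_apply]
    field_simp
    ring

private theorem main_ineq (hDIV : StDIV) (hEUL : StEUL) (hCSD : StCSD) (hMOM : StMOM)
    (hCAL : StCAL) (hC : Good C) (a : ℕ) : ∃ B : ℝ, ∀ i : ℕ, 1 ≤ i → ∀ b : ℕ,
    IntegrableOn (fun z => th (C.vv z / i) * gb a b (C.u z) *
      C.en (fun j => db j (cf C.vv) z) z) C.U ∧
    ∫ z in C.U, th (C.vv z / i) * gb a b (C.u z) * C.en (fun j => db j (cf C.vv) z) z ≤
      B * i := by
  obtain ⟨c', hc'⟩ := vv_ge hC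
  obtain ⟨c₀, hc0, hc1⟩ : ∃ c₀ : ℝ, 0 ≤ c₀ ∧ ∀ z ∈ C.U, -c₀ ≤ C.vv z :=
    ⟨|c'|, abs_nonneg _, fun z hz => (neg_le_neg (le_abs_self c')).trans (hc' z hz)⟩
  have hUo := U_open C
  have hm : (1 : ℝ) ≤ C.m := by
    have h1 := hC.hm
    have h2 := hC.hn
    have h3 : 1 ≤ C.m := by omega
    exact_mod_cast h3
  set W : (Fin C.m → ℂ) → ℝ := fun z =>
    (1 + C.u z ^ a) * Real.exp (-C.u z) * (‖ev C.J z‖ ^ 2 / C.u z) with hW
  have hWi : IntegrableOn W C.U := int_wt hMOM hC a
  refine ⟨(2 + c₀) * (MM C * (C.m - 1)) * ∫ z in C.U, W z, fun i hi b => ?_⟩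
  have hi0 : (0 : ℝ) < i := by exact_mod_cast hi
  have hb0 : (0 : ℝ) < (b : ℝ) + 1 := by positivity
  obtain ⟨K, hKc, hKU, hK⟩ := cpt2 hC (s₁ := 1 / (2 * ((b : ℝ) + 1))) (s₂ := 2 * ((b : ℝ) + 1))
    (t := 2 * i) (by positivity)
  have hoff : ∀ z ∈ C.U, z ∉ K → gb a b (C.u z) = 0 ∨ 2 ≤ C.vv z / i := by
    intro z hz hzK
    by_contra hcon
    rw [not_or, not_le] at hcon
    obtain ⟨h1, h2⟩ := hcon
    obtain ⟨h3, h4⟩ := gb_supp a b (u_pos hC hz) h1
    rw [div_lt_iff₀ hi0] at h2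
    exact hzK (hK z hz h3 h4 h2.le)
  -- the cutoff function
  set f0 : (Fin C.m → ℂ) → ℝ := fun z => Th (C.vv z / i) * gb a b (C.u z) with hf0
  set F : (Fin C.m → ℂ) → ℝ := C.U.indicator f0 with hF
  have hFU : ∀ z ∈ C.U, F z = f0 z := fun z hz => Set.indicator_of_mem hz _
  have hFK : ∀ z, z ∉ K → F z = 0 := by
    intro z hzK
    by_cases hz : z ∈ C.U
    · rw [hFU z hz, hf0]
      rcases hoff z hz hzK with h | h
      · simp only [h, mul_zero]
      · simp only [Th_zero h, zero_mul]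
    · exact Set.indicator_of_notMem hz _
  have sv := vv_smooth hC
  have sA : ContDiffOn ℝ ∞ (fun z => Th (C.vv z / i)) C.U :=
    Th_smooth.comp_contDiffOn (sv.div_const _)
  have sB : ContDiffOn ℝ ∞ (fun z => gb a b (C.u z)) C.U :=
    (gb_smooth a b).comp hC.usm fun z hz => u_pos hC hz
  have sf : ContDiffOn ℝ ∞ f0 C.U := sA.mul sB
  have hFs : ContDiff ℝ ∞ F := by
    rw [contDiff_iff_contDiffAt]
    intro z
    by_cases hz : z ∈ C.U
    · refine (sf.contDiffAt (hUo.mem_nhds hz)).congr_of_eventuallyEq ?_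
      filter_upwards [hUo.mem_nhds hz] with y hy
      exact hFU y hy
    · have h1 : Kᶜ ∈ 𝓝 z := hKc.isClosed.isOpen_compl.mem_nhds fun h => hz (hKU h)
      refine (contDiffAt_const (c := (0 : ℝ))).congr_of_eventuallyEq ?_
      filter_upwards [h1] with y hy
      exact hFK y hy
  have hFc : HasCompactSupport F := HasCompactSupport.intro hKc hFK
  have hFt : tsupport F ⊆ C.U := by
    refine (closure_minimal (fun z hz => ?_) hKc.isClosed).trans hKU
    by_contra h
    exact hz (hFK z h)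
  have hid := hDIV C.m C.U hUo C.u C.vv F hC.usm sv hFs hFc hFt
  -- continuity
  have hadj : ∀ k j, ContinuousOn (fun z => (hes C.u z).adjugate k j) C.U := fun k j =>
    ((continuous_id.matrix_adjugate).matrix_elem k j).comp_continuousOn
      (Helper19.KP.stk_hes_cont hUo C.u hC.usm)
  have scv := Helper19.KP.stk_cf C.vv sv
  have hdbc : ∀ k, ContinuousOn (db k (cf C.vv)) C.U := fun k =>
    (Helper19.KP.stk_cdb hUo k _ scv).continuousOn
  have hdzc : ∀ k, ContinuousOn (dz k (cf C.vv)) C.U := fun k =>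
    (Helper19.KP.stk_cdz hUo k _ scv).continuousOn
  have hhc : ∀ j k, ContinuousOn (fun z => hes C.vv z j k) C.U := fun j k =>
    (Helper19.KP.stk_cdz hUo j _ (Helper19.KP.stk_cdb hUo k _ scv)).continuousOn
  set TT : (Fin C.m → ℂ) → ℂ := fun z => ∑ j, ∑ k, (hes C.u z).adjugate k j * hes C.vv z j k
    with hTT
  have hTTc : ContinuousOn TT C.U :=
    continuousOn_finsetSum _ fun j _ => continuousOn_finsetSum _ fun k _ =>
      (hadj k j).mul (hhc j k)
  set EE : (Fin C.m → ℂ) → ℂ := fun z =>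
    ∑ k, ∑ j, (hes C.u z).adjugate k j * db k (cf C.vv) z * star (db j (cf C.vv) z) with hEE
  have hEEc : ContinuousOn EE C.U :=
    continuousOn_finsetSum _ fun k _ => continuousOn_finsetSum _ fun j _ =>
      ((hadj k j).mul (hdbc k)).mul ((hdbc j).star)
  have hen : ∀ z, C.en (fun j => db j (cf C.vv) z) z = (EE z).re := fun z => rfl
  have hFcont : ContinuousOn (fun z => (F z : ℂ)) C.U :=
    (Complex.continuous_ofReal.comp hFs.continuous).continuousOn
  have i1 : IntegrableOn (fun z => (F z : ℂ) * TT z) C.U :=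
    int_K hUo hKc hKU (hFcont.mul hTTc) fun z _ hzK => by rw [hFK z hzK]; simp
  have hthc : ContinuousOn (fun z => th (C.vv z / i) * gb a b (C.u z)) C.U :=
    (th_smooth.continuous.comp_continuousOn (sv.continuousOn.div_const _)).mul sB.continuousOn
  have hth0 : ∀ z ∈ C.U, z ∉ K → th (C.vv z / i) * gb a b (C.u z) = 0 := by
    intro z hz hzK
    rcases hoff z hz hzK with h | h
    · rw [h, mul_zero]
    · rw [th_zero h, zero_mul]
  have i2 : IntegrableOn (fun z => ((th (C.vv z / i) * gb a b (C.u z) : ℝ) : ℂ) * EE z) C.U :=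
    int_K hUo hKc hKU ((Complex.continuous_ofReal.comp_continuousOn hthc).mul hEEc)
      fun z hz hzK => by rw [hth0 z hz hzK]; simp
  have i3 : IntegrableOn (fun z => th (C.vv z / i) * gb a b (C.u z) *
      C.en (fun j => db j (cf C.vv) z) z) C.U := by
    refine int_K hUo hKc hKU (hthc.mul ?_) fun z hz hzK => by rw [hth0 z hz hzK]; simp
    exact Complex.continuous_re.comp_continuousOn hEEc
  refine ⟨i3, ?_⟩
  -- the right side
  have hG : ∀ z ∈ C.U, ∑ j, ∑ k, (hes C.u z).adjugate k j * dz j (cf C.vv) z * db k (cf F) z =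
      -((1 / i : ℝ) : ℂ) * (((th (C.vv z / i) * gb a b (C.u z) : ℝ) : ℂ) * EE z) := by
    intro z hz
    have hvd : DifferentiableAt ℝ C.vv z := (sv.contDiffAt (hUo.mem_nhds hz)).differentiableAt
      (by simp)
    have hud : DifferentiableAt ℝ C.u z := (hC.usm.contDiffAt (hUo.mem_nhds hz)).differentiableAt
      (by simp)
    have hgd : DifferentiableAt ℝ (gb a b) (C.u z) :=
      ((gb_smooth a b).contDiffAt (Ioi_mem_nhds (u_pos hC hz))).differentiableAt (by simp)
    have hTd : HasDerivAt (fun s : ℝ => Th (s / i)) (-th (C.vv z / i) * (1 / i)) (C.vv z) := by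
      have h1 : HasDerivAt (fun s : ℝ => s / (i : ℝ)) (1 / i) (C.vv z) :=
        (hasDerivAt_id _).div_const _
      exact (Th_deriv (C.vv z / i)).comp (C.vv z) h1
    have hA : DifferentiableAt ℝ (fun z => Th (C.vv z / i)) z :=
      (sA.contDiffAt (hUo.mem_nhds hz)).differentiableAt (by simp)
    have hB : DifferentiableAt ℝ (fun z => gb a b (C.u z)) z :=
      (sB.contDiffAt (hUo.mem_nhds hz)).differentiableAt (by simp)
    have hdb : ∀ k, db k (cf F) z =
        ((-th (C.vv z / i) * (1 / i) * gb a b (C.u z) : ℝ) : ℂ) * db k (cf C.vv) z +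
          ((Th (C.vv z / i) * deriv (gb a b) (C.u z) : ℝ) : ℂ) * db k (cf C.u) z := by
      intro k
      have e1 : cf F =ᶠ[𝓝 z] fun x => cf (fun z => Th (C.vv z / i)) x *
          cf (fun z => gb a b (C.u z)) x := by
        filter_upwards [hUo.mem_nhds hz] with y hy
        simp only [cf, hFU y hy, hf0]
        push_cast
        ring
      rw [Helper22.KP.db_congr e1]
      have e2 := ((hCAL C.m k k (cf fun z => Th (C.vv z / i)) (cf fun z => gb a b (C.u z)) z).1
        (Helper22.KP.cf_diff hA) (Helper22.KP.cf_diff hB)).2.2.2.1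
      have e3 := Helper22.KP.comp_db (f := fun s : ℝ => Th (s / i)) hvd hTd.differentiableAt k
      have e4 := Helper22.KP.comp_db (f := gb a b) hud hgd k
      rw [e2, e3, e4, hTd.deriv]
      simp only [cf]
      push_cast
      ring
    obtain ⟨-, -, E3, E4, -⟩ := hEUL C hC z hz
    have f1 : ∑ j, ∑ k, (hes C.u z).adjugate k j * dz j (cf C.vv) z * db k (cf C.vv) z = EE z := by
      rw [hEE, Finset.sum_comm]
      refine Finset.sum_congr rfl fun k _ => Finset.sum_congr rfl fun j _ => ?_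
      rw [Helper22.KP.dz_star_db hCAL hvd j]
      ring
    have f2 : ∑ j, ∑ k, (hes C.u z).adjugate k j * dz j (cf C.vv) z * db k (cf C.u) z = 0 := by
      have e1 : ∀ j, ∑ k, (hes C.u z).adjugate k j * dz j (cf C.vv) z * db k (cf C.u) z =
          2 * (hes C.u z).det * ((C.w j : ℂ) * z j * dz j (cf C.vv) z) := by
        intro j
        have e2 : ∑ k, (hes C.u z).adjugate k j * dz j (cf C.vv) z * db k (cf C.u) z =
            dz j (cf C.vv) z * ∑ k, (hes C.u z).adjugate k j * db k (cf C.u) z := by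
          rw [Finset.mul_sum]
          exact Finset.sum_congr rfl fun k _ => by ring
        rw [e2, E4 j]
        ring
      rw [Finset.sum_congr rfl fun j _ => e1 j, ← Finset.mul_sum, E3 C.vv sv (vv_inv hC), mul_zero]
    have f3 : ∑ j, ∑ k, (hes C.u z).adjugate k j * dz j (cf C.vv) z * db k (cf F) z =
        ((-th (C.vv z / i) * (1 / i) * gb a b (C.u z) : ℝ) : ℂ) *
          ∑ j, ∑ k, (hes C.u z).adjugate k j * dz j (cf C.vv) z * db k (cf C.vv) z +
        ((Th (C.vv z / i) * deriv (gb a b) (C.u z) : ℝ) : ℂ) *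
          ∑ j, ∑ k, (hes C.u z).adjugate k j * dz j (cf C.vv) z * db k (cf C.u) z := by
      rw [Finset.mul_sum, Finset.mul_sum, ← Finset.sum_add_distrib]
      refine Finset.sum_congr rfl fun j _ => ?_
      rw [Finset.mul_sum, Finset.mul_sum, ← Finset.sum_add_distrib]
      refine Finset.sum_congr rfl fun k _ => ?_
      rw [hdb k]
      ring
    rw [f3, f1, f2]
    push_cast
    ring
  have hR : ∫ z in C.U, ∑ j, ∑ k, (hes C.u z).adjugate k j * dz j (cf C.vv) z * db k (cf F) z =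
      -((1 / i : ℝ) : ℂ) *
        ∫ z in C.U, ((th (C.vv z / i) * gb a b (C.u z) : ℝ) : ℂ) * EE z := by
    rw [← integral_const_mul]
    exact setIntegral_congr_fun hUo.measurableSet fun z hz => hG z hz
  have hre : ∫ z in C.U, F z * (TT z).re =
      (1 / i) * ∫ z in C.U, th (C.vv z / i) * gb a b (C.u z) *
        C.en (fun j => db j (cf C.vv) z) z := by
    have h1 := congrArg Complex.reCLM hid
    rw [hR, ← Complex.reCLM.integral_comp_comm i1, neg_mul, neg_neg, Complex.reCLM_apply,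
      Complex.re_ofReal_mul] at h1
    have h2 : (∫ z in C.U, ((th (C.vv z / i) * gb a b (C.u z) : ℝ) : ℂ) * EE z).re =
        ∫ z in C.U, th (C.vv z / i) * gb a b (C.u z) *
          C.en (fun j => db j (cf C.vv) z) z := by
      have h3 := Complex.reCLM.integral_comp_comm i2
      rw [Complex.reCLM_apply] at h3
      rw [← h3]
      refine integral_congr_ae (Eventually.of_forall fun z => ?_)
      simp only [Complex.reCLM_apply]
      rw [Complex.re_ofReal_mul, hen]
    rw [h2] at h1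
    rw [← h1]
    refine integral_congr_ae (Eventually.of_forall fun z => ?_)
    simp only [Complex.reCLM_apply]
    rw [Complex.re_ofReal_mul]
  have hle : ∫ z in C.U, F z * (TT z).re ≤
      ∫ z in C.U, (2 + c₀) * (MM C * (C.m - 1)) * W z := by
    have i4 : IntegrableOn (fun z => F z * (TT z).re) C.U :=
      int_K hUo hKc hKU (hFs.continuous.continuousOn.mul
        (Complex.continuous_re.comp_continuousOn hTTc)) fun z _ hzK => by rw [hFK z hzK]; simp
    refine setIntegral_mono_on i4 (hWi.const_mul _) hUo.measurableSet fun z hz => ?_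
    have hu := u_pos hC hz
    have h1 := tr_vv hCAL hEUL hCSD hC hz
    have h2 : F z ≤ (2 + c₀) * ((1 + C.u z ^ a) * Real.exp (-C.u z)) := by
      rw [hFU z hz]
      refine mul_le_mul (Th_le hc0 ?_) (gb_le a b hu) (gb_nn a b hu) (by linarith)
      rw [le_div_iff₀ hi0]
      have h3 := hc1 z hz
      have h4 : (1 : ℝ) ≤ i := by exact_mod_cast hi
      nlinarith
    have h3 : 0 ≤ F z := by
      rw [hFU z hz]
      exact mul_nonneg (Th_nn _) (gb_nn a b hu)
    have h5 : 0 ≤ MM C * ((C.m - 1 : ℝ) * ‖ev C.J z‖ ^ 2 / C.u z) :=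
      mul_nonneg (MM_nn C) (div_nonneg (mul_nonneg (by linarith) (by positivity)) hu.le)
    calc F z * (TT z).re ≤ F z * (MM C * ((C.m - 1 : ℝ) * ‖ev C.J z‖ ^ 2 / C.u z)) :=
          mul_le_mul_of_nonneg_left h1 h3
      _ ≤ (2 + c₀) * ((1 + C.u z ^ a) * Real.exp (-C.u z)) *
          (MM C * ((C.m - 1 : ℝ) * ‖ev C.J z‖ ^ 2 / C.u z)) := mul_le_mul_of_nonneg_right h2 h5
      _ = (2 + c₀) * (MM C * (C.m - 1)) * W z := by
        rw [hW]
        ring
  rw [integral_const_mul, hre, one_div, inv_mul_le_iff₀ hi0] at hle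
  rw [mul_comm _ (i : ℝ)]
  exact hle

theorem hCU1 (hDIV : StDIV) (hEUL : StEUL) (hCSD : StCSD) (hMOM : StMOM) (hCAL : StCAL) :
    StCU1 := by
  intro C hC
  refine ⟨vv_ge hC, vv_smooth hC, vv_inv hC, fun a => ?_⟩
  obtain ⟨B, hB⟩ := main_ineq hDIV hEUL hCSD hMOM hCAL hC a
  refine ⟨B, fun i hi => ?_⟩
  have hi0 : (0 : ℝ) < i := by exact_mod_cast hi
  have hUo := U_open C
  have sv := vv_smooth hC
  set s : Set (Fin C.m → ℂ) := {z | z ∈ C.U ∧ C.vv z ≤ i} with hs
  have hsU : s ⊆ C.U := fun z hz => hz.1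
  have hsm : MeasurableSet s := by
    have h1 : IsOpen (C.U ∩ C.vv ⁻¹' Set.Ioi (i : ℝ)) :=
      sv.continuousOn.isOpen_inter_preimage hUo isOpen_Ioi
    have h2 : s = C.U \ (C.U ∩ C.vv ⁻¹' Set.Ioi (i : ℝ)) := by
      ext z
      simp only [hs, Set.mem_ofPred_eq, Set.mem_sdiff, Set.mem_inter_iff, Set.mem_preimage,
        Set.mem_Ioi, not_and, not_lt]
      exact ⟨fun h => ⟨h.1, fun _ => h.2⟩, fun h => ⟨h.1, h.2 h.1⟩⟩
    rw [h2]
    exact hUo.measurableSet.diff h1.measurableSet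
  have hen0 : ∀ z ∈ C.U, 0 ≤ C.en (fun j => db j (cf C.vv) z) z := fun z hz =>
    (hCSD C hC z hz _).1
  have hle : ∀ b : ℕ, ∫⁻ z in s, ENNReal.ofReal (C.en (fun j => db j (cf C.vv) z) z *
      gb a b (C.u z)) ≤ ENNReal.ofReal (B * i) := by
    intro b
    obtain ⟨h1, h2⟩ := hB i hi b
    calc ∫⁻ z in s, ENNReal.ofReal (C.en (fun j => db j (cf C.vv) z) z * gb a b (C.u z))
        = ∫⁻ z in s, ENNReal.ofReal (th (C.vv z / i) * gb a b (C.u z) *
            C.en (fun j => db j (cf C.vv) z) z) := by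
          refine setLIntegral_congr_fun hsm fun z hz => ?_
          have h3 : C.vv z / i ≤ 1 := (div_le_one hi0).2 hz.2
          rw [th_one h3, one_mul, mul_comm]
      _ ≤ ∫⁻ z in C.U, ENNReal.ofReal (th (C.vv z / i) * gb a b (C.u z) *
            C.en (fun j => db j (cf C.vv) z) z) := lintegral_mono_set hsU
      _ = ENNReal.ofReal (∫ z in C.U, th (C.vv z / i) * gb a b (C.u z) *
            C.en (fun j => db j (cf C.vv) z) z) := by
          rw [ofReal_integral_eq_lintegral_ofReal h1]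
          exact ae_restrict_of_forall_mem hUo.measurableSet fun z hz =>
            mul_nonneg (mul_nonneg (th_nn _) (gb_nn a b (u_pos hC hz))) (hen0 z hz)
      _ ≤ ENNReal.ofReal (B * i) := ENNReal.ofReal_le_ofReal h2
  have hmeas : ∀ b : ℕ, AEMeasurable (fun z => ENNReal.ofReal (C.en (fun j => db j (cf C.vv) z) z *
      gb a b (C.u z))) (volume.restrict s) := by
    intro b
    have hadj : ∀ k j, ContinuousOn (fun z => (hes C.u z).adjugate k j) C.U := fun k j =>
      ((continuous_id.matrix_adjugate).matrix_elem k j).comp_continuousOn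
        (Helper19.KP.stk_hes_cont hUo C.u hC.usm)
    have hdbc : ∀ k, ContinuousOn (db k (cf C.vv)) C.U := fun k =>
      (Helper19.KP.stk_cdb hUo k _ (Helper19.KP.stk_cf C.vv sv)).continuousOn
    have h1 : ContinuousOn (fun z => C.en (fun j => db j (cf C.vv) z) z) C.U :=
      Complex.continuous_re.comp_continuousOn (continuousOn_finsetSum _ fun k _ =>
        continuousOn_finsetSum _ fun j _ => ((hadj k j).mul (hdbc k)).mul ((hdbc j).star))
    have h2 : ContinuousOn (fun z => gb a b (C.u z)) C.U :=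
      ((gb_smooth a b).comp hC.usm fun z hz => u_pos hC hz).continuousOn
    exact (((h1.mul h2).mono hsU).aemeasurable hsm).ennreal_ofReal
  have hlim : ∀ z ∈ s, liminf (fun b : ℕ => ENNReal.ofReal (C.en (fun j => db j (cf C.vv) z) z *
      gb a b (C.u z))) atTop = ENNReal.ofReal (C.en (fun j => db j (cf C.vv) z) z *
      ((1 + C.u z ^ a) * Real.exp (-C.u z))) := by
    intro z hz
    have hu := u_pos hC (hsU hz)
    refine Tendsto.liminf_eq (tendsto_const_nhds.congr' ?_)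
    obtain ⟨n₁, hn₁⟩ := exists_nat_ge (C.u z)
    obtain ⟨n₂, hn₂⟩ := exists_nat_ge (1 / C.u z)
    filter_upwards [eventually_ge_atTop (max n₁ n₂)] with b hb
    have h1 : (n₁ : ℝ) ≤ b := by exact_mod_cast (le_max_left _ _).trans hb
    have h2 : (n₂ : ℝ) ≤ b := by exact_mod_cast (le_max_right _ _).trans hb
    have h3 : 1 ≤ ((b : ℝ) + 1) * C.u z := by
      have h4 : 1 / C.u z ≤ (b : ℝ) + 1 := by linarith
      rwa [div_le_iff₀ hu] at h4
    rw [gb_eq a b hu (by linarith) h3]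
  calc ∫⁻ z in s, ENNReal.ofReal (C.en (fun j => db j (cf C.vv) z) z *
        ((1 + C.u z ^ a) * Real.exp (-C.u z)))
      = ∫⁻ z in s, liminf (fun b : ℕ => ENNReal.ofReal (C.en (fun j => db j (cf C.vv) z) z *
        gb a b (C.u z))) atTop := setLIntegral_congr_fun hsm fun z hz => (hlim z hz).symm
    _ ≤ liminf (fun b : ℕ => ∫⁻ z in s, ENNReal.ofReal (C.en (fun j => db j (cf C.vv) z) z *
        gb a b (C.u z))) atTop := lintegral_liminf_le' hmeas
    _ ≤ liminf (fun _ : ℕ => ENNReal.ofReal (B * i)) atTop :=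
        liminf_le_liminf (Eventually.of_forall hle)
    _ = ENNReal.ofReal (B * i) := by simp

end cone

end Pool.Agent.Helper76.KP
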