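import Pool.Agent.Helper52.KP.StW

/-!
# Project KP, module REG: regularisation of the potential
-/

set_option autoImplicit false

namespace Pool.Agent.Helper76.KP

open Pool.Agent.Helper52.KP MeasureTheory Filter
open scoped ContDiff ComplexOrder Topology Convolution Manifold

variable {m : ℕ}

section conv

/-- convolution with a complex kernel -/
private noncomputable def cw (g f : (Fin m → ℂ) → ℂ) (z : Fin m → ℂ) : ℂ := ∫ x, g (z - x) * f x

private theorem cw_eq (g f : (Fin m → ℂ) → ℂ) :
    cw g f = (f ⋆[ContinuousLinearMap.mul ℝ ℂ, volume] g) := by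
  funext z
  unfold cw convolution
  refine integral_congr_ae (Eventually.of_forall fun x => ?_)
  simp only [ContinuousLinearMap.mul_apply']
  exact mul_comm _ _

private theorem fd {g : (Fin m → ℂ) → ℂ} (h1 : ContDiff ℝ 1 g) (hc : HasCompactSupport g)
    {f : (Fin m → ℂ) → ℂ} (hf : LocallyIntegrable f volume) (z v : Fin m → ℂ) :
    fderiv ℝ (cw g f) z v = ∫ x, f x * fderiv ℝ g (z - x) v := by
  have h2 := (hc.hasFDerivAt_convolution_right (ContinuousLinearMap.mul ℝ ℂ) hf h1 z).fderiv
  rw [cw_eq, h2, convolution_precompR_apply (ContinuousLinearMap.mul ℝ ℂ) hf (hc.fderiv ℝ)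
    (h1.continuous_fderiv one_ne_zero)]
  rfl

private theorem ig0 {g : (Fin m → ℂ) → ℂ} (h1 : Continuous g) (hc : HasCompactSupport g)
    {f : (Fin m → ℂ) → ℂ} (hf : LocallyIntegrable f volume) (z : Fin m → ℂ) :
    Integrable fun x => f x * g (z - x) :=
  hc.convolutionExists_right (ContinuousLinearMap.mul ℝ ℂ) hf h1 z

private theorem ig {g : (Fin m → ℂ) → ℂ} (h1 : ContDiff ℝ 1 g) (hc : HasCompactSupport g)
    {f : (Fin m → ℂ) → ℂ} (hf : LocallyIntegrable f volume) (z v : Fin m → ℂ) :
    Integrable fun x => f x * fderiv ℝ g (z - x) v := by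
  have h2 : HasCompactSupport fun x => fderiv ℝ g x v :=
    (hc.fderiv ℝ).comp_left (g := fun L : (Fin m → ℂ) →L[ℝ] ℂ => L v) rfl
  have h3 : Continuous fun x => fderiv ℝ g x v :=
    (h1.continuous_fderiv one_ne_zero).clm_apply continuous_const
  exact ig0 h3 h2 hf z

private theorem dz_cw {g : (Fin m → ℂ) → ℂ} (h1 : ContDiff ℝ 1 g) (hc : HasCompactSupport g)
    {f : (Fin m → ℂ) → ℂ} (hf : LocallyIntegrable f volume) (j : Fin m) :
    dz j (cw g f) = cw (dz j g) f := by
  funext z
  have e1 := fd h1 hc hf z (Pi.single j 1)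
  have e2 := fd h1 hc hf z (Pi.single j Complex.I)
  have i1 := ig h1 hc hf z (Pi.single j 1)
  have i2 := ig h1 hc hf z (Pi.single j Complex.I)
  unfold dz cw
  unfold cw at e1 e2
  rw [e1, e2, ← integral_const_mul, ← integral_sub i1 (i2.const_mul _), ← integral_div]
  refine integral_congr_ae (Eventually.of_forall fun x => ?_)
  simp only
  ring

private theorem db_cw {g : (Fin m → ℂ) → ℂ} (h1 : ContDiff ℝ 1 g) (hc : HasCompactSupport g)
    {f : (Fin m → ℂ) → ℂ} (hf : LocallyIntegrable f volume) (j : Fin m) :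
    db j (cw g f) = cw (db j g) f := by
  funext z
  have e1 := fd h1 hc hf z (Pi.single j 1)
  have e2 := fd h1 hc hf z (Pi.single j Complex.I)
  have i1 := ig h1 hc hf z (Pi.single j 1)
  have i2 := ig h1 hc hf z (Pi.single j Complex.I)
  unfold db cw
  unfold cw at e1 e2
  rw [e1, e2, ← integral_const_mul, ← integral_add i1 (i2.const_mul _), ← integral_div]
  refine integral_congr_ae (Eventually.of_forall fun x => ?_)
  simp only
  ring

private theorem cw_comm (g f : (Fin m → ℂ) → ℂ) : cw g f = cw f g := by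
  funext z
  unfold cw
  rw [← integral_sub_left_eq_self (fun x => g (z - x) * f x) volume z]
  refine integral_congr_ae (Eventually.of_forall fun x => ?_)
  simp only [sub_sub_cancel]
  exact mul_comm _ _

private theorem smooth_dir {g : (Fin m → ℂ) → ℂ} (h : ContDiff ℝ ∞ g) (v : Fin m → ℂ) :
    ContDiff ℝ ∞ fun z => fderiv ℝ g z v :=
  (h.fderiv_right (m := ∞) (by exact_mod_cast le_rfl)).clm_apply contDiff_const

private theorem dz_smooth {g : (Fin m → ℂ) → ℂ} (h : ContDiff ℝ ∞ g) (j : Fin m) :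
    ContDiff ℝ ∞ (dz j g) := by
  unfold dz
  exact ((smooth_dir h _).sub (contDiff_const.mul (smooth_dir h _))).div_const 2

private theorem db_smooth {g : (Fin m → ℂ) → ℂ} (h : ContDiff ℝ ∞ g) (j : Fin m) :
    ContDiff ℝ ∞ (db j g) := by
  unfold db
  exact ((smooth_dir h _).add (contDiff_const.mul (smooth_dir h _))).div_const 2

private theorem dz_supp {g : (Fin m → ℂ) → ℂ} (h : HasCompactSupport g) (j : Fin m) :
    HasCompactSupport (dz j g) := by
  refine HasCompactSupport.of_support_subset_isCompact (h.fderiv ℝ) ?_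
  intro z hz
  rw [Function.mem_support] at hz
  by_contra h1
  apply hz
  have h2 : fderiv ℝ g z = 0 := by
    by_contra h3
    exact h1 (subset_tsupport _ h3)
  unfold dz
  simp [h2]

private theorem db_supp {g : (Fin m → ℂ) → ℂ} (h : HasCompactSupport g) (j : Fin m) :
    HasCompactSupport (db j g) := by
  refine HasCompactSupport.of_support_subset_isCompact (h.fderiv ℝ) ?_
  intro z hz
  rw [Function.mem_support] at hz
  by_contra h1
  apply hz
  have h2 : fderiv ℝ g z = 0 := by
    by_contra h3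
    exact h1 (subset_tsupport _ h3)
  unfold db
  simp [h2]

private theorem dz_congr {f g : (Fin m → ℂ) → ℂ} {z : Fin m → ℂ} (h : f =ᶠ[𝓝 z] g) (j : Fin m) :
    dz j f z = dz j g z := by
  unfold dz
  rw [h.fderiv_eq]

private theorem db_congr {f g : (Fin m → ℂ) → ℂ} {z : Fin m → ℂ} (h : f =ᶠ[𝓝 z] g) (j : Fin m) :
    db j f z = db j g z := by
  unfold db
  rw [h.fderiv_eq]

private theorem dzdb_congr {f g : (Fin m → ℂ) → ℂ} {z : Fin m → ℂ} (h : f =ᶠ[𝓝 z] g)
    (j k : Fin m) : dz j (db k f) z = dz j (db k g) z := by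
  apply dz_congr
  filter_upwards [h.eventuallyEq_nhds] with y hy
  exact db_congr hy k

private theorem cf_contDiff {φ : (Fin m → ℂ) → ℝ} (h : ContDiff ℝ ∞ φ) : ContDiff ℝ ∞ (cf φ) :=
  Complex.ofRealCLM.contDiff.comp h

private theorem cf_compact {φ : (Fin m → ℂ) → ℝ} {r : ℝ} (h : ∀ z : Fin m → ℂ, r < ‖z‖ → φ z = 0) :
    HasCompactSupport (cf φ) := by
  refine HasCompactSupport.intro (isCompact_closedBall (0 : Fin m → ℂ) r) fun z hz => ?_
  rw [mem_closedBall_zero_iff, not_le] at hz
  simp [cf, h z hz]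

private theorem cv_cw (φ : (Fin m → ℂ) → ℝ) (f : (Fin m → ℂ) → ℂ) : cv φ f = cw (cf φ) f := rfl

private theorem fd_ref {g : (Fin m → ℂ) → ℂ} (h : ContDiff ℝ 1 g) (z x v : Fin m → ℂ) :
    fderiv ℝ (fun y => g (z - y)) x v = - fderiv ℝ g (z - x) v := by
  have h1 : HasFDerivAt (fun y : Fin m → ℂ => z - y)
      (-(ContinuousLinearMap.id ℝ (Fin m → ℂ))) x := (hasFDerivAt_id x).const_sub z
  have h2 : HasFDerivAt g (fderiv ℝ g (z - x)) (z - x) :=
    ((h.differentiable (by simp)) (z - x)).hasFDerivAt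
  have h3 := (h2.comp x h1).fderiv
  have h4 : (fun y => g (z - y)) = g ∘ fun y => z - y := rfl
  rw [h4, h3]
  simp

private theorem fd_neg (g : (Fin m → ℂ) → ℂ) (x : Fin m → ℂ) :
    fderiv ℝ (fun y => - g y) x = - fderiv ℝ g x := fderiv_fun_neg

private theorem dz_neg (g : (Fin m → ℂ) → ℂ) (j : Fin m) (x : Fin m → ℂ) :
    dz j (fun y => - g y) x = - dz j g x := by
  unfold dz
  rw [fd_neg]
  simp only [_root_.neg_apply]
  ring

private theorem hes_ref {φ : (Fin m → ℂ) → ℝ} (h : ContDiff ℝ ∞ φ) (z x : Fin m → ℂ) :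
    hes (fun y => φ (z - y)) x = hes φ (z - x) := by
  ext j k
  have h0 := cf_contDiff h
  have h1 : db k (cf fun y => φ (z - y)) = fun y => - db k (cf φ) (z - y) := by
    funext y
    have e : (cf fun y => φ (z - y)) = fun y => cf φ (z - y) := rfl
    rw [e]
    unfold db
    rw [fd_ref (h0.of_le (by exact_mod_cast le_top)), fd_ref (h0.of_le (by exact_mod_cast le_top))]
    ring
  have h2 := db_smooth h0 k
  unfold hes
  simp only [Matrix.of_apply]
  rw [h1, dz_neg (fun y => db k (cf φ) (z - y))]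
  unfold dz
  rw [fd_ref (h2.of_le (by exact_mod_cast le_top)), fd_ref (h2.of_le (by exact_mod_cast le_top))]
  ring

end conv

section unif

variable {φ : ℕ → (Fin m → ℂ) → ℝ}

private theorem mol_far (hφ : Mol φ) {i : ℕ} {z x : Fin m → ℂ} (h : φ i (z - x) ≠ 0) :
    dist z x ≤ 1 / ((i : ℝ) + 1) := by
  rw [dist_eq_norm]
  by_contra h1
  exact h (hφ.supp i _ (not_le.1 h1))

private theorem mol_cont (hφ : Mol φ) (i : ℕ) : Continuous (φ i) := (hφ.smooth i).continuous

private theorem mol_comp (hφ : Mol φ) (i : ℕ) : HasCompactSupport (φ i) := by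
  refine HasCompactSupport.intro
    (isCompact_closedBall (0 : Fin m → ℂ) (1 / ((i : ℝ) + 1))) fun z hz => ?_
  rw [mem_closedBall_zero_iff, not_le] at hz
  exact hφ.supp i z hz

private theorem mol_int (hφ : Mol φ) (i : ℕ) (z : Fin m → ℂ) :
    Integrable fun x => φ i (z - x) :=
  ((mol_cont hφ i).integrable_of_hasCompactSupport (mol_comp hφ i)).comp_sub_left z

private theorem mol_one (hφ : Mol φ) (i : ℕ) (z : Fin m → ℂ) : ∫ x, φ i (z - x) = 1 := by
  rw [integral_sub_left_eq_self (φ i) volume z]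
  exact hφ.one i

private theorem unif (hφ : Mol φ) {h : (Fin m → ℂ) → ℂ} (hc : Continuous h)
    (hs : HasCompactSupport h) : TendstoUniformly (fun i => cv (φ i) h) h atTop := by
  rw [Metric.tendstoUniformly_iff]
  intro ε hε
  have hu : UniformContinuous h := hs.uniformContinuous_of_continuous hc
  rw [Metric.uniformContinuous_iff] at hu
  obtain ⟨δ, hδ, hδ2⟩ := hu (ε / 2) (half_pos hε)
  have h1 : ∀ᶠ i : ℕ in atTop, 1 / ((i : ℝ) + 1) < δ :=
    (tendsto_one_div_add_atTop_nhds_zero_nat (𝕜 := ℝ)).eventually (gt_mem_nhds hδ)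
  filter_upwards [h1] with i hi z
  have i1 : Integrable fun x => (φ i (z - x) : ℂ) := (mol_int hφ i z).ofReal
  have i2 : Integrable fun x => (φ i (z - x) : ℂ) * h x := by
    have := ig0 (g := cf (φ i)) (cf_contDiff (hφ.smooth i)).continuous (cf_compact (hφ.supp i))
      (f := h) hc.locallyIntegrable z
    refine this.congr (Eventually.of_forall fun x => ?_)
    simp only [cf]
    ring
  have e0 : (∫ x, (φ i (z - x) : ℂ)) = 1 := by
    rw [integral_complex_ofReal, mol_one hφ]
    simp
  have e1 : cv (φ i) h z - h z = ∫ x, (φ i (z - x) : ℂ) * (h x - h z) := by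
    have : (fun x => (φ i (z - x) : ℂ) * (h x - h z)) =
        fun x => (φ i (z - x) : ℂ) * h x - (φ i (z - x) : ℂ) * h z := by
      funext x
      ring
    rw [this, integral_sub i2 (i1.mul_const _), integral_mul_const, e0, one_mul]
    rfl
  rw [dist_comm, dist_eq_norm, e1]
  calc ‖∫ x, (φ i (z - x) : ℂ) * (h x - h z)‖
      ≤ ∫ x, ‖(φ i (z - x) : ℂ) * (h x - h z)‖ := norm_integral_le_integral_norm _
    _ ≤ ∫ x, φ i (z - x) * (ε / 2) := by
      apply integral_mono_of_nonneg
      · exact Eventually.of_forall fun x => norm_nonneg _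
      · exact (mol_int hφ i z).mul_const _
      · refine Eventually.of_forall fun x => ?_
        simp only [norm_mul, Complex.norm_real, Real.norm_eq_abs, abs_of_nonneg (hφ.nonneg i _)]
        by_cases hx : φ i (z - x) = 0
        · simp [hx]
        · apply mul_le_mul_of_nonneg_left _ (hφ.nonneg i _)
          have h2 := mol_far hφ hx
          have h3 : dist x z < δ := by
            rw [dist_comm]
            exact h2.trans_lt hi
          have h4 := hδ2 h3
          rw [dist_eq_norm] at h4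
          exact h4.le
    _ = ε / 2 := by rw [integral_mul_const, mol_one hφ, one_mul]
    _ < ε := half_lt_self hε

/-- localisation -/
private theorem loc {U K : Set (Fin m → ℂ)} (hU : IsOpen U) (hK : IsCompact K) (hKU : K ⊆ U)
    {u : (Fin m → ℂ) → ℝ} (hu : ContDiffOn ℝ ∞ u U) :
    ∃ (g : (Fin m → ℂ) → ℂ) (δ : ℝ), 0 < δ ∧ ContDiff ℝ ∞ g ∧ HasCompactSupport g ∧
      Metric.thickening δ K ⊆ U ∧ ∀ x ∈ Metric.thickening δ K, g x = (u x : ℂ) := by
  obtain ⟨ε, hε, hεU⟩ := hK.exists_cthickening_subset_open hU hKU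
  have h1 : Metric.cthickening (ε / 2) K ⊆ interior (Metric.cthickening ε K) :=
    (Metric.cthickening_subset_thickening' hε (half_lt_self hε) K).trans
      (Metric.thickening_subset_interior_cthickening ε K)
  obtain ⟨χ, hχ1, hχ0, -⟩ := exists_contMDiffMap_one_nhds_of_subset_interior
    (n := ⊤) 𝓘(ℝ, Fin m → ℂ) (Metric.isClosed_cthickening (E := K) (δ := ε / 2)) h1
  have hχs : ContDiff ℝ ∞ χ := χ.contMDiff.contDiff
  have hz0 : ∀ x, x ∉ Metric.cthickening ε K → cf (fun x => χ x * u x) x = 0 := by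
    intro x hx
    simp [cf, hχ0 x hx]
  refine ⟨cf (fun x => χ x * u x), ε / 2, half_pos hε, ?_, ?_, ?_, ?_⟩
  · rw [contDiff_iff_contDiffAt]
    intro x
    by_cases hx : x ∈ U
    · have h2 : ContDiffAt ℝ ∞ (fun x => χ x * u x) x :=
        hχs.contDiffAt.mul (hu.contDiffAt (hU.mem_nhds hx))
      exact Complex.ofRealCLM.contDiff.contDiffAt.comp x h2
    · have h2 : x ∈ (Metric.cthickening ε K)ᶜ := fun h => hx (hεU h)
      have h3 : (Metric.cthickening ε K)ᶜ ∈ 𝓝 x :=
        (Metric.isClosed_cthickening.isOpen_compl).mem_nhds h2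
      refine (contDiffAt_const (c := (0 : ℂ))).congr_of_eventuallyEq ?_
      filter_upwards [h3] with y hy
      exact hz0 y hy
  · exact HasCompactSupport.intro hK.cthickening hz0
  · exact ((Metric.thickening_subset_cthickening _ _).trans
      (Metric.cthickening_mono (half_le_self hε.le) K)).trans hεU
  · intro x hx
    have h2 : x ∈ Metric.cthickening (ε / 2) K := Metric.thickening_subset_cthickening _ _ hx
    have h3 : χ x = 1 := hχ1.self_of_nhdsSet x h2
    simp [cf, h3]

private theorem cv_congr (hφ : Mol φ) {K : Set (Fin m → ℂ)} {δ : ℝ} {f g : (Fin m → ℂ) → ℂ}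
    (h : ∀ x ∈ Metric.thickening δ K, f x = g x) {i : ℕ} (hi : 1 / ((i : ℝ) + 1) < δ / 2)
    {z : Fin m → ℂ} (hz : z ∈ Metric.thickening (δ / 2) K) : cv (φ i) f z = cv (φ i) g z := by
  unfold cv
  refine integral_congr_ae (Eventually.of_forall fun x => ?_)
  by_cases hx : φ i (z - x) = 0
  · simp [hx]
  · have h1 := mol_far hφ hx
    rw [Metric.mem_thickening_iff] at hz
    obtain ⟨y, hy, hzy⟩ := hz
    have h2 : x ∈ Metric.thickening δ K := by
      refine Metric.mem_thickening_iff.2 ⟨y, hy, ?_⟩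
      have h3 := dist_triangle x z y
      rw [dist_comm x z] at h3
      linarith
    simp only
    rw [h x h2]

private theorem conv_all (hφ : Mol φ) {U K : Set (Fin m → ℂ)} (hU : IsOpen U) (hK : IsCompact K)
    (hKU : K ⊆ U) {u : (Fin m → ℂ) → ℝ} (hu : ContDiffOn ℝ ∞ u U) {f : (Fin m → ℂ) → ℂ}
    (hfu : ∀ x ∈ U, f x = (u x : ℂ)) :
    TendstoUniformlyOn (fun i z => cv (φ i) f z) (cf u) atTop K ∧
    (∀ j, TendstoUniformlyOn (fun i z => dz j (cv (φ i) f) z) (fun z => dz j (cf u) z) atTop K) ∧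
    ∀ j k, TendstoUniformlyOn (fun i z => dz j (db k (cv (φ i) f)) z)
      (fun z => dz j (db k (cf u)) z) atTop K := by
  obtain ⟨g, δ, hδ, hg, hgs, hsub, hgu⟩ := loc hU hK hKU hu
  have hev : ∀ᶠ i : ℕ in atTop, 1 / ((i : ℝ) + 1) < δ / 2 :=
    (tendsto_one_div_add_atTop_nhds_zero_nat (𝕜 := ℝ)).eventually (gt_mem_nhds (half_pos hδ))
  have hfg : ∀ x ∈ Metric.thickening δ K, g x = f x := fun x hx => by
    rw [hgu x hx, hfu x (hsub hx)]
  have g1 : ∀ᶠ i : ℕ in atTop, ∀ z ∈ K, cv (φ i) g =ᶠ[𝓝 z] cv (φ i) f := by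
    filter_upwards [hev] with i hi z hz
    have h1 : Metric.thickening (δ / 2) K ∈ 𝓝 z :=
      Metric.isOpen_thickening.mem_nhds (Metric.self_subset_thickening (half_pos hδ) K hz)
    filter_upwards [h1] with y hy
    exact cv_congr hφ hfg hi hy
  have g2 : ∀ z ∈ K, g =ᶠ[𝓝 z] cf u := by
    intro z hz
    have h1 : Metric.thickening δ K ∈ 𝓝 z :=
      Metric.isOpen_thickening.mem_nhds (Metric.self_subset_thickening hδ K hz)
    filter_upwards [h1] with y hy
    exact hgu y hy
  have gl : LocallyIntegrable (fun x : Fin m → ℂ => (x : Fin m → ℂ)) volume :=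
    continuous_id.locallyIntegrable
  have hl : ∀ i, LocallyIntegrable (cf (φ i)) volume := fun i =>
    (cf_contDiff (hφ.smooth i)).continuous.locallyIntegrable
  have c1 : ∀ (i : ℕ) (h : (Fin m → ℂ) → ℂ), ContDiff ℝ ∞ h → HasCompactSupport h → ∀ j,
      dz j (cv (φ i) h) = cv (φ i) (dz j h) := by
    intro i h hh hhs j
    rw [cv_cw, cw_comm, dz_cw (hh.of_le (by exact_mod_cast le_top)) hhs (hl i), cw_comm]
    rfl
  have c2 : ∀ (i : ℕ) (h : (Fin m → ℂ) → ℂ), ContDiff ℝ ∞ h → HasCompactSupport h → ∀ j,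
      db j (cv (φ i) h) = cv (φ i) (db j h) := by
    intro i h hh hhs j
    rw [cv_cw, cw_comm, db_cw (hh.of_le (by exact_mod_cast le_top)) hhs (hl i), cw_comm]
    rfl
  refine ⟨?_, ?_, ?_⟩
  · have h1 := (unif hφ hg.continuous hgs).tendstoUniformlyOn (s := K)
    refine (h1.congr ?_).congr_right fun z hz => (g2 z hz).eq_of_nhds
    filter_upwards [g1] with i hi z hz
    exact (hi z hz).eq_of_nhds
  · intro j
    have h1 := (unif hφ (dz_smooth hg j).continuous (dz_supp hgs j)).tendstoUniformlyOn (s := K)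
    refine (h1.congr ?_).congr_right fun z hz => dz_congr (g2 z hz) j
    filter_upwards [g1] with i hi z hz
    simp only
    rw [← c1 i g hg hgs j]
    exact dz_congr (hi z hz) j
  · intro j k
    have h1 := (unif hφ (dz_smooth (db_smooth hg k) j).continuous
      (dz_supp (db_supp hgs k) j)).tendstoUniformlyOn (s := K)
    refine (h1.congr ?_).congr_right fun z hz => dzdb_congr (g2 z hz) j k
    filter_upwards [g1] with i hi z hz
    simp only
    rw [← c1 i (db k g) (db_smooth hg k) (db_supp hgs k) j, ← c2 i g hg hgs k]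
    exact dzdb_congr (hi z hz) j k

end unif

section main

variable {φ : ℕ → (Fin m → ℂ) → ℝ}

private theorem norm_sub_le_norm_add_dist_aux (z x : Fin m → ℂ) : ‖x‖ ≤ ‖z‖ + dist z x := by
  have h := norm_add_le z (x - z)
  rw [add_sub_cancel] at h
  rwa [dist_comm, dist_eq_norm]

/-- the action of the circle preserves the volume -/
private theorem mp_scl (w : Fin m → ℕ) {c : ℂ} (hc : ‖c‖ = 1) :
    MeasurePreserving (scl w c) (volume : Measure (Fin m → ℂ)) volume := by
  have h : ∀ j : Fin m, MeasurePreserving (fun x : ℂ => c ^ w j * x) volume volume := by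
    intro j
    have h1 : c ^ w j ∈ Submonoid.unitSphere ℂ := by
      rw [Submonoid.unitSphere]
      simp [hc]
    exact (rotation (⟨c ^ w j, h1⟩ : Circle)).measurePreserving
  exact volume_preserving_pi h

private theorem emb_scl (w : Fin m → ℕ) {c : ℂ} (hc : ‖c‖ = 1) :
    MeasurableEmbedding (scl w c : (Fin m → ℂ) → (Fin m → ℂ)) := by
  have hc0 : c ≠ 0 := by
    intro h
    rw [h, norm_zero] at hc
    exact zero_ne_one hc
  refine Continuous.measurableEmbedding ?_ ?_
  · unfold scl
    fun_prop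
  · intro x y hxy
    funext j
    have h := congrFun hxy j
    simp only [scl] at h
    exact mul_left_cancel₀ (pow_ne_zero _ hc0) h

private theorem scl_sub (w : Fin m → ℕ) (c : ℂ) (x y : Fin m → ℂ) :
    scl w c x - scl w c y = scl w c (x - y) := by
  funext j
  simp [scl, mul_sub]

private theorem hes_herm (h1 : StCAL) {ψ : (Fin m → ℂ) → ℝ} (hψ : ContDiff ℝ ∞ ψ)
    (z : Fin m → ℂ) : (hes ψ z).IsHermitian := by
  have h0 := cf_contDiff hψ
  have hd : ∀ z, DifferentiableAt ℝ (cf ψ) z := fun z => (h0.differentiable (by simp)) z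
  refine Matrix.IsHermitian.ext fun j k => ?_
  have hst : (fun z => star (cf ψ z)) = cf ψ := by
    funext x
    simp [cf]
  have a1 : (fun z => star (db j (cf ψ) z)) = dz j (cf ψ) := by
    funext y
    have h2 := ((h1 m j k (cf ψ) (cf ψ) y).1 (hd y) (hd y)).2.2.2.2.1
    rw [hst] at h2
    exact h2.symm
  have hd2 : DifferentiableAt ℝ (db j (cf ψ)) z := ((db_smooth h0 j).differentiable (by simp)) z
  have a2 := ((h1 m k k (db j (cf ψ)) (db j (cf ψ)) z).1 hd2 hd2).2.2.2.2.2.1
  have a3 := ((h1 m j k (cf ψ) (cf ψ) z).2.2.2.1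
    ((contDiff_infty.1 h0 2).contDiffAt)).1
  unfold hes
  simp only [Matrix.of_apply]
  rw [← a2, a1, a3]

private theorem hf_conv (hφ : Mol φ) {f : (Fin m → ℂ) → ℝ} (hf' : LocallyIntegrable (cf f) volume)
    (i : ℕ) (z ξ : Fin m → ℂ) {v : (Fin m → ℂ) → ℝ} (hv : cf v = cv (φ i) (cf f)) :
    hf (hes v z) ξ = ∫ x, f x * hf (hes (fun y => φ i (z - y)) x) ξ := by
  have h0 := cf_contDiff (hφ.smooth i)
  have hs := cf_compact (hφ.supp i)
  set M : Fin m → Fin m → (Fin m → ℂ) → ℂ := fun j k => dz j (db k (cf (φ i))) with hM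
  have e1 : ∀ j k, hes v z j k = ∫ x, M j k (z - x) * cf f x := by
    intro j k
    unfold hes
    simp only [Matrix.of_apply]
    rw [hv, cv_cw, db_cw (h0.of_le (by exact_mod_cast le_top)) hs hf' k,
      dz_cw ((db_smooth h0 k).of_le (by exact_mod_cast le_top)) (db_supp hs k) hf' j]
    rfl
  have i1 : ∀ j k, Integrable fun x => M j k (z - x) * cf f x := by
    intro j k
    have h := ig0 (dz_smooth (db_smooth h0 k) j).continuous (dz_supp (db_supp hs k) j) hf' z
    refine h.congr (Eventually.of_forall fun x => ?_)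
    simp only [hM]
    ring
  have i2 : ∀ j k, Integrable fun x => M j k (z - x) * cf f x * (ξ j * star (ξ k)) :=
    fun j k => (i1 j k).mul_const _
  have i3 : Integrable fun x => ∑ j, ∑ k, M j k (z - x) * cf f x * (ξ j * star (ξ k)) :=
    integrable_finsetSum _ fun j _ => integrable_finsetSum _ fun k _ => i2 j k
  have e2 : ∫ x, ∑ j, ∑ k, M j k (z - x) * cf f x * (ξ j * star (ξ k)) =
      ∑ j, ∑ k, hes v z j k * ξ j * star (ξ k) := by
    rw [integral_finsetSum _ fun j _ => integrable_finsetSum _ fun k _ => i2 j k]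
    refine Finset.sum_congr rfl fun j _ => ?_
    rw [integral_finsetSum _ fun k _ => i2 j k]
    refine Finset.sum_congr rfl fun k _ => ?_
    rw [integral_mul_const, e1 j k, mul_assoc]
  have e3 : hf (hes v z) ξ =
      Complex.reCLM (∫ x, ∑ j, ∑ k, M j k (z - x) * cf f x * (ξ j * star (ξ k))) := by
    rw [e2]
    rfl
  rw [e3, ← Complex.reCLM.integral_comp_comm i3]
  refine integral_congr_ae (Eventually.of_forall fun x => ?_)
  simp only
  rw [hes_ref (hφ.smooth i)]
  have e4 : ∑ j, ∑ k, M j k (z - x) * cf f x * (ξ j * star (ξ k)) =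
      (f x : ℂ) * ∑ j, ∑ k, hes (φ i) (z - x) j k * ξ j * star (ξ k) := by
    rw [Finset.mul_sum]
    refine Finset.sum_congr rfl fun j _ => ?_
    rw [Finset.mul_sum]
    refine Finset.sum_congr rfl fun k _ => ?_
    simp only [hM, cf, hes, Matrix.of_apply]
    ring
  rw [e4, Complex.reCLM_apply, Complex.re_ofReal_mul]
  rfl

theorem hREG (hWPS : StWPS) (hTMV : StTMV) (hMEX : StMEX) (hNUL : StNUL) (hCAL : StCAL) :
    StREG := by
  intro C hC
  obtain ⟨φ, hφ⟩ := hMEX C.m
  have hUo : IsOpen C.U :=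
    (isOpen_ne (x := (0 : ℂ))).preimage (MvPolynomial.continuous_eval C.Δ)
  have hUn : volume C.Uᶜ = 0 := by
    have h1 : C.Uᶜ = {z | ev C.Δ z = 0} := by
      ext z
      simp [Cone.U]
    rw [h1]
    exact hNUL C.m C.Δ hC.Δ0
  have hUae : ∀ᵐ x : Fin C.m → ℂ, x ∈ C.U := by
    rw [ae_iff]
    exact hUn
  obtain ⟨a, b, ha, hab⟩ := hC.ubd
  have hsz0 : ∀ z, 0 ≤ C.sz z := fun z => Finset.sum_nonneg fun i _ => norm_nonneg _
  have hszc : Continuous fun z => |b| * C.sz z :=
    continuous_const.mul (continuous_finsetSum _ fun i _ =>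
      (MvPolynomial.continuous_eval (C.X i)).norm)
  set uu : (Fin C.m → ℂ) → ℝ := C.U.indicator C.u with huu
  have huU : ∀ x ∈ C.U, uu x = C.u x := fun x hx => Set.indicator_of_mem hx _
  have huN : ∀ x, x ∉ C.U → uu x = 0 := fun x hx => Set.indicator_of_notMem hx _
  have hu0 : ∀ x, 0 ≤ uu x := by
    intro x
    by_cases hx : x ∈ C.U
    · rw [huU x hx]
      exact (mul_nonneg ha.le (hsz0 x)).trans (hab x hx).1
    · rw [huN x hx]
  have hub : ∀ x, uu x ≤ |b| * C.sz x := by
    intro x
    by_cases hx : x ∈ C.U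
    · rw [huU x hx]
      exact (hab x hx).2.trans (mul_le_mul_of_nonneg_right (le_abs_self b) (hsz0 x))
    · rw [huN x hx]
      exact mul_nonneg (abs_nonneg b) (hsz0 x)
  have hum : AEStronglyMeasurable uu volume := by
    rw [huu, aestronglyMeasurable_indicator_iff hUo.measurableSet]
    exact hC.usm.continuousOn.aestronglyMeasurable hUo.measurableSet
  have hloc : LocallyIntegrable (cf uu) volume := by
    refine LocallyIntegrable.mono hszc.locallyIntegrable
      (Complex.continuous_ofReal.comp_aestronglyMeasurable hum)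
      (Eventually.of_forall fun x => ?_)
    rw [cf, Complex.norm_real, Real.norm_of_nonneg (hu0 x),
      Real.norm_of_nonneg (mul_nonneg (abs_nonneg b) (hsz0 x))]
    exact hub x
  have hbd : ∀ R : ℝ, ∃ B : ℝ, ∀ z : Fin C.m → ℂ, ‖z‖ ≤ R → |b| * C.sz z ≤ B := by
    intro R
    obtain ⟨B, hB⟩ := (isCompact_closedBall (0 : Fin C.m → ℂ) R).exists_bound_of_continuousOn
      hszc.continuousOn
    refine ⟨B, fun z hz => (le_abs_self _).trans ?_⟩
    exact hB z (mem_closedBall_zero_iff.2 hz)
  have huint : ∀ i z, Integrable fun x => φ i (z - x) * uu x := by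
    intro i z
    have h1 := ig0 (g := cf (φ i)) (cf_contDiff (hφ.smooth i)).continuous (cf_compact (hφ.supp i))
      hloc z
    have h2 := h1.re
    refine h2.congr (Eventually.of_forall fun x => ?_)
    simp [cf, mul_comm]
  set v : ℕ → (Fin C.m → ℂ) → ℝ := fun i z => ∫ x, φ i (z - x) * uu x with hv
  have hcf : ∀ i, cf (v i) = cv (φ i) (cf uu) := by
    intro i
    funext z
    simp only [cf, cv, hv]
    rw [← integral_complex_ofReal]
    refine integral_congr_ae (Eventually.of_forall fun x => ?_)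
    simp
  have hsm : ∀ i, ContDiff ℝ ∞ (v i) := by
    intro i
    have h1 : ContDiff ℝ ∞ (cf (v i)) := by
      rw [hcf i, cv_cw, cw_eq]
      exact (cf_compact (hφ.supp i)).contDiff_convolution_right (ContinuousLinearMap.mul ℝ ℂ)
        hloc (cf_contDiff (hφ.smooth i))
    exact Complex.reCLM.contDiff.comp h1
  have hUpsd : ∀ z, ev C.Δ z ≠ 0 → Psd (hes C.u z) := by
    intro z hz
    have h1 := (hC.uhes z hz).1
    refine ⟨h1.1, fun ξ => ?_⟩
    by_cases hξ : ξ = 0
    · simp [hξ, hf]
    · exact (h1.2 ξ hξ).le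
  have hpsd : ∀ i z, Psd (hes (v i) z) := by
    intro i z
    refine ⟨hes_herm hCAL (hsm i) z, fun ξ => ?_⟩
    rw [hf_conv hφ hloc i z ξ (hcf i)]
    have h1 := hWPS C.m C.Δ hC.Δ0 C.u hC.usm hUpsd (fun R => by
      obtain ⟨B, hB⟩ := hbd R
      refine ⟨B, fun z hz hz' => ?_⟩
      rw [← huU z hz', abs_of_nonneg (hu0 z)]
      exact (hub z).trans (hB z hz)) (fun x => φ i (z - x))
      ((hφ.smooth i).comp (contDiff_const.sub contDiff_id))
      ((mol_comp hφ i).comp_homeomorph (Homeomorph.subLeft z)) (fun x => hφ.nonneg i _) ξ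
    have h2 : ∫ x in C.U, C.u x * hf (hes (fun y => φ i (z - y)) x) ξ =
        ∫ x, uu x * hf (hes (fun y => φ i (z - y)) x) ξ := by
      rw [← integral_indicator hUo.measurableSet]
      refine integral_congr_ae (Eventually.of_forall fun x => ?_)
      by_cases hx : x ∈ C.U
      · simp only [Set.indicator_of_mem hx, huU x hx]
      · simp only [Set.indicator_of_notMem hx, huN x hx, zero_mul]
    rw [← h2]
    exact h1
  have hbnd : ∀ R : ℝ, ∃ B : ℝ, ∀ i z, ‖z‖ ≤ R → v i z ≤ B := by
    intro R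
    obtain ⟨B, hB⟩ := hbd (R + 1)
    refine ⟨B, fun i z hz => ?_⟩
    calc v i z ≤ ∫ x, φ i (z - x) * B := by
          apply integral_mono_of_nonneg
          · exact Eventually.of_forall fun x => mul_nonneg (hφ.nonneg i _) (hu0 x)
          · exact (mol_int hφ i z).mul_const _
          · refine Eventually.of_forall fun x => ?_
            by_cases hx : φ i (z - x) = 0
            · simp [hx]
            · apply mul_le_mul_of_nonneg_left _ (hφ.nonneg i _)
              have h2 := mol_far hφ hx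
              have h3 : ‖x‖ ≤ R + 1 := by
                have h4 : ‖x‖ ≤ ‖z‖ + dist z x := by
                  have h5 := norm_sub_le_norm_add_dist_aux z x
                  exact h5
                have h6 : 1 / ((i : ℝ) + 1) ≤ 1 := by
                  rw [div_le_one (by positivity)]
                  have : (0 : ℝ) ≤ i := Nat.cast_nonneg i
                  linarith
                linarith
              exact (hub x).trans (hB x h3)
      _ = B := by rw [integral_mul_const, mol_one hφ, one_mul]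
  have hv0 : ∀ i z, 0 ≤ v i z := fun i z =>
    integral_nonneg fun x => mul_nonneg (hφ.nonneg i _) (hu0 x)
  have hconv : ∀ K ⊆ C.U, IsCompact K → TendstoUniformlyOn v C.u atTop K ∧
      (∀ j, TendstoUniformlyOn (fun i z => dz j (cf (v i)) z) (fun z => dz j (cf C.u) z)
        atTop K) ∧
      ∀ j k, TendstoUniformlyOn (fun i z => hes (v i) z j k) (fun z => hes C.u z j k) atTop K := by
    intro K hK hKc
    obtain ⟨c1, c2, c3⟩ := conv_all hφ hUo hKc hK hC.usm (f := cf uu)
      (fun x hx => by simp [cf, huU x hx])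
    refine ⟨?_, ?_, ?_⟩
    · rw [Metric.tendstoUniformlyOn_iff] at c1 ⊢
      intro ε hε
      filter_upwards [c1 ε hε] with i hi z hz
      have h1 := hi z hz
      rw [← hcf i] at h1
      simp only [cf] at h1
      rwa [dist_eq_norm, ← Complex.ofReal_sub, Complex.norm_real, ← dist_eq_norm] at h1
    · intro j
      simp only [hcf]
      exact c2 j
    · intro j k
      have h1 := c3 j k
      unfold hes
      simp only [Matrix.of_apply, hcf]
      exact h1
  refine ⟨v, hsm, hpsd, ?_, ?_, hbnd, hv0, hconv⟩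
  · intro i z hz
    have hpt : ∀ x ∈ C.U, Tendsto (fun j => v j x) atTop (𝓝 (C.u x)) := by
      intro x hx
      exact (hconv {x} (Set.singleton_subset_iff.2 hx) isCompact_singleton).1.tendsto_at
        (Set.mem_singleton x)
    have hle : ∀ j, v j z ≤ ∫ x, φ i (z - x) * v j x := fun j =>
      hTMV C.m (v j) (hsm j) (hpsd j) (φ i) (mol_cont hφ i) (mol_comp hφ i) (hφ.nonneg i)
        (hφ.one i) (fun c z hc => hφ.inv i z (fun _ => c) fun _ => hc) z
    have hlim : Tendsto (fun j => ∫ x, φ i (z - x) * v j x) atTop (𝓝 (v i z)) := by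
      obtain ⟨B, hB⟩ := hbnd (‖z‖ + 1)
      refine tendsto_integral_of_dominated_convergence (fun x => φ i (z - x) * B) ?_ ?_ ?_ ?_
      · intro j
        exact (((mol_cont hφ i).comp (continuous_const.sub continuous_id)).mul
          (hsm j).continuous).aestronglyMeasurable
      · exact (mol_int hφ i z).mul_const _
      · intro j
        refine Eventually.of_forall fun x => ?_
        rw [Real.norm_of_nonneg (mul_nonneg (hφ.nonneg i _) (hv0 j x))]
        by_cases hx : φ i (z - x) = 0
        · simp [hx]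
        · apply mul_le_mul_of_nonneg_left _ (hφ.nonneg i _)
          have h2 := mol_far hφ hx
          apply hB
          have h4 : ‖x‖ ≤ ‖z‖ + dist z x := norm_sub_le_norm_add_dist_aux z x
          have h6 : 1 / ((i : ℝ) + 1) ≤ 1 := by
            rw [div_le_one (by positivity)]
            have : (0 : ℝ) ≤ i := Nat.cast_nonneg i
            linarith
          linarith
      · filter_upwards [hUae] with x hx
        rw [huU x hx]
        exact (hpt x hx).const_mul _
    exact le_of_tendsto_of_tendsto' (hpt z hz) hlim hle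
  · intro i c z hc
    have hc0 : c ≠ 0 := by
      intro h
      rw [h, norm_zero] at hc
      exact zero_ne_one hc
    have hUiff : ∀ x, scl C.w c x ∈ C.U ↔ x ∈ C.U := by
      intro x
      constructor
      · intro h
        have h1 := hC.sclU c⁻¹ (inv_ne_zero hc0) _ h
        have h2 : scl C.w c⁻¹ (scl C.w c x) = x := by
          funext j
          simp only [scl, inv_pow]
          exact inv_mul_cancel_left₀ (pow_ne_zero _ hc0) _
        rwa [h2] at h1
      · exact hC.sclU c hc0 x
    have huinv : ∀ x, uu (scl C.w c x) = uu x := by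
      intro x
      by_cases hx : x ∈ C.U
      · rw [huU _ ((hUiff x).2 hx), huU x hx, hC.uhom x hx c hc0, hc, one_mul]
      · rw [huN _ (fun h => hx ((hUiff x).1 h)), huN x hx]
    simp only [hv]
    rw [← (mp_scl C.w hc).integral_comp (emb_scl C.w hc)]
    refine integral_congr_ae (Eventually.of_forall fun x => ?_)
    simp only
    rw [scl_sub, huinv]
    congr 1
    exact hφ.inv i (z - x) (fun j => c ^ C.w j) fun j => by simp [hc]

end main

end Pool.Agent.Helper76.KP
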