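import Pool.Agent.Helper85.KP.StE
import Pool.Agent.Helper19.KP.M_STK
import Pool.Agent.Helper22.KP.M_EUL

/-!
# Project KP, module ERE: a Rellich theorem
-/

set_option autoImplicit false

namespace Pool.Agent.Helper76.KP

open MeasureTheory Filter Pool.Agent.Helper52.KP Pool.Agent.Helper85.KP
open scoped ContDiff ComplexOrder Topology

section rellich

variable {m : ℕ}

/-- increments of a smooth function -/
private theorem incr {X : (Fin m → ℂ) → ℝ} (hX : ContDiff ℝ 1 X) (y : Fin m → ℂ) :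
    ∫⁻ z, ‖X z - X (z - y)‖ₑ ≤ (∫⁻ z, ‖fderiv ℝ X z‖ₑ) * ‖y‖ₑ := by
  have hfc : Continuous (fderiv ℝ X) := hX.continuous_fderiv (by simp)
  have h1 : ∀ z, ‖X z - X (z - y)‖ₑ ≤
      ∫⁻ τ in Set.Ioc (0 : ℝ) 1, ‖fderiv ℝ X (z - τ • y)‖ₑ * ‖y‖ₑ := by
    intro z
    have hd : ∀ τ ∈ Set.uIcc (0 : ℝ) 1,
        HasDerivAt (fun τ : ℝ => X (z - τ • y)) (-(fderiv ℝ X (z - τ • y) y)) τ := by
      intro τ _
      have h2 : HasDerivAt (fun τ : ℝ => z - τ • y) (-y) τ := by
        have h3 : HasDerivAt (fun τ : ℝ => τ • y) ((1 : ℝ) • y) τ :=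
          (hasDerivAt_id τ).smul_const y
        rw [one_smul] at h3
        exact h3.const_sub z
      have h4 : HasFDerivAt X (fderiv ℝ X (z - τ • y)) (z - τ • y) :=
        ((hX.differentiable (by simp)) _).hasFDerivAt
      have h5 := h4.comp_hasDerivAt τ h2
      rw [map_neg] at h5
      exact h5
    have hc : Continuous fun τ : ℝ => -(fderiv ℝ X (z - τ • y) y) := by
      have h6 : Continuous fun τ : ℝ => z - τ • y := by fun_prop
      exact ((hfc.comp h6).clm_apply continuous_const).neg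
    have h7 := intervalIntegral.integral_eq_sub_of_hasDerivAt hd (hc.intervalIntegrable 0 1)
    simp only [one_smul, zero_smul, sub_zero] at h7
    have h8 : X z - X (z - y) = -∫ τ in (0 : ℝ)..1, -(fderiv ℝ X (z - τ • y) y) := by
      rw [h7]
      ring
    rw [h8, enorm_neg, intervalIntegral.integral_of_le zero_le_one]
    refine (enorm_integral_le_lintegral_enorm _).trans (lintegral_mono fun τ => ?_)
    simp only [enorm_neg]
    exact ContinuousLinearMap.le_opENorm _ _
  have hmeas : AEMeasurable (Function.uncurry fun (z : Fin m → ℂ) (τ : ℝ) =>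
      ‖fderiv ℝ X (z - τ • y)‖ₑ * ‖y‖ₑ) (volume.prod (volume.restrict (Set.Ioc (0 : ℝ) 1))) := by
    have h6 : Continuous fun q : (Fin m → ℂ) × ℝ => q.1 - q.2 • y := by fun_prop
    exact (((hfc.comp h6).enorm).measurable.mul_const _).aemeasurable
  calc ∫⁻ z, ‖X z - X (z - y)‖ₑ
      ≤ ∫⁻ z, ∫⁻ τ in Set.Ioc (0 : ℝ) 1, ‖fderiv ℝ X (z - τ • y)‖ₑ * ‖y‖ₑ := lintegral_mono h1
    _ = ∫⁻ τ in Set.Ioc (0 : ℝ) 1, ∫⁻ z, ‖fderiv ℝ X (z - τ • y)‖ₑ * ‖y‖ₑ :=
        lintegral_lintegral_swap hmeas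
    _ = ∫⁻ τ in Set.Ioc (0 : ℝ) 1, (∫⁻ z, ‖fderiv ℝ X z‖ₑ) * ‖y‖ₑ := by
        refine lintegral_congr fun τ => ?_
        rw [lintegral_mul_const _ (by
          have h6 : Continuous fun z : Fin m → ℂ => z - τ • y := by fun_prop
          exact ((hfc.comp h6).enorm).measurable)]
        congr 1
        exact lintegral_sub_right_eq_self (fun z => ‖fderiv ℝ X z‖ₑ) (τ • y)
    _ = (∫⁻ z, ‖fderiv ℝ X z‖ₑ) * ‖y‖ₑ := by
        rw [setLIntegral_const]
        simp

/-- the mollification error in the mean -/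
private theorem moll {φ : ℕ → (Fin m → ℂ) → ℝ} (hφ : Mol φ) (l : ℕ) {X : (Fin m → ℂ) → ℝ}
    (hX : ContDiff ℝ 1 X) :
    ∫⁻ z, ‖X z - ∫ y, φ l (z - y) * X y‖ₑ ≤
      (∫⁻ z, ‖fderiv ℝ X z‖ₑ) * ENNReal.ofReal (1 / ((l : ℝ) + 1)) := by
  have hφc : Continuous (φ l) := (hφ.smooth l).continuous
  have hφs : HasCompactSupport (φ l) := by
    refine HasCompactSupport.intro
      (isCompact_closedBall (0 : Fin m → ℂ) (1 / ((l : ℝ) + 1))) fun z hz => ?_
    rw [mem_closedBall_zero_iff, not_le] at hz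
    exact hφ.supp l z hz
  have hφi : Integrable (φ l) := hφc.integrable_of_hasCompactSupport hφs
  have h1 : ∀ z, ‖X z - ∫ y, φ l (z - y) * X y‖ₑ ≤ ∫⁻ y, ‖φ l y‖ₑ * ‖X z - X (z - y)‖ₑ := by
    intro z
    have e1 : ∫ y, φ l (z - y) * X y = ∫ y, φ l y * X (z - y) := by
      rw [← integral_sub_left_eq_self (fun y => φ l (z - y) * X y) volume z]
      refine integral_congr_ae (Eventually.of_forall fun y => ?_)
      simp only [sub_sub_cancel]
    have i1 : Integrable fun y => φ l y * X (z - y) :=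
      (hφc.mul (hX.continuous.comp (continuous_const.sub continuous_id))).integrable_of_hasCompactSupport
        hφs.mul_right
    have e2 : X z - ∫ y, φ l (z - y) * X y = ∫ y, φ l y * (X z - X (z - y)) := by
      rw [e1]
      have e3 : (fun y => φ l y * (X z - X (z - y))) =
          fun y => φ l y * X z - φ l y * X (z - y) := by
        funext y
        ring
      rw [e3, integral_sub (hφi.mul_const _) i1, integral_mul_const, hφ.one l, one_mul]
    rw [e2]
    refine (enorm_integral_le_lintegral_enorm _).trans (lintegral_mono fun y => ?_)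
    simp only
    rw [enorm_mul]
  have hmeas : AEMeasurable (Function.uncurry fun (z y : Fin m → ℂ) =>
      ‖φ l y‖ₑ * ‖X z - X (z - y)‖ₑ) (volume.prod volume) := by
    have h2 : Continuous fun q : (Fin m → ℂ) × (Fin m → ℂ) => φ l q.2 :=
      hφc.comp continuous_snd
    have h3 : Continuous fun q : (Fin m → ℂ) × (Fin m → ℂ) => X q.1 - X (q.1 - q.2) :=
      (hX.continuous.comp continuous_fst).sub
        (hX.continuous.comp (continuous_fst.sub continuous_snd))
    exact (h2.enorm.measurable.mul h3.enorm.measurable).aemeasurable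
  calc ∫⁻ z, ‖X z - ∫ y, φ l (z - y) * X y‖ₑ
      ≤ ∫⁻ z, ∫⁻ y, ‖φ l y‖ₑ * ‖X z - X (z - y)‖ₑ := lintegral_mono h1
    _ = ∫⁻ y, ∫⁻ z, ‖φ l y‖ₑ * ‖X z - X (z - y)‖ₑ := lintegral_lintegral_swap hmeas
    _ ≤ ∫⁻ y, ‖φ l y‖ₑ * ((∫⁻ z, ‖fderiv ℝ X z‖ₑ) * ENNReal.ofReal (1 / ((l : ℝ) + 1))) := by
        refine lintegral_mono fun y => ?_
        simp only
        rw [lintegral_const_mul _ (by
          exact (hX.continuous.sub (hX.continuous.comp
            (continuous_id.sub continuous_const))).enorm.measurable)]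
        by_cases hy : φ l y = 0
        · simp [hy]
        · have h2 : ‖y‖ ≤ 1 / ((l : ℝ) + 1) := by
            by_contra h3
            exact hy (hφ.supp l y (not_le.1 h3))
          have h4 : ‖y‖ₑ ≤ ENNReal.ofReal (1 / ((l : ℝ) + 1)) := by
            rw [← ofReal_norm]
            exact ENNReal.ofReal_le_ofReal h2
          gcongr
          exact (incr hX y).trans (by gcongr)
    _ = (∫⁻ z, ‖fderiv ℝ X z‖ₑ) * ENNReal.ofReal (1 / ((l : ℝ) + 1)) := by
        rw [lintegral_mul_const _ hφc.enorm.measurable]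
        have h5 : ∫⁻ y, ‖φ l y‖ₑ = 1 := by
          have h6 : ∫⁻ y, ‖φ l y‖ₑ = ∫⁻ y, ENNReal.ofReal (φ l y) := by
            refine lintegral_congr fun y => ?_
            rw [← ofReal_norm, Real.norm_of_nonneg (hφ.nonneg l y)]
          rw [h6, ← ofReal_integral_eq_lintegral_ofReal hφi
            (Eventually.of_forall (hφ.nonneg l)), hφ.one l, ENNReal.ofReal_one]
        rw [h5, one_mul]

/-- the global version: a bounded sequence is Cauchy in the mean if its mollifications converge -/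
private theorem cauchy {φ : ℕ → (Fin m → ℂ) → ℝ} (hφ : Mol φ) {L : Set (Fin m → ℂ)}
    (hL : IsCompact L) {X : ℕ → (Fin m → ℂ) → ℝ} (hX : ∀ i, ContDiff ℝ 1 (X i))
    (hs : ∀ i z, z ∉ L → X i z = 0) {B : ℝ} (hB : ∀ᶠ i in atTop, ∀ z, |X i z| ≤ B)
    {M : ENNReal} (hM : M ≠ ⊤) (hM2 : ∀ᶠ i in atTop, ∫⁻ z, ‖fderiv ℝ (X i) z‖ₑ ≤ M)
    (hw : ∀ l z, ∃ a : ℝ, Tendsto (fun i => ∫ y, φ l (z - y) * X i y) atTop (𝓝 a))
    {ε : ENNReal} (hε : 0 < ε) :
    ∀ᶠ i in atTop, ∀ k ≥ i, ∫⁻ z, ‖X i z - X k z‖ₑ ≤ ε := by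
  have hε4 : 0 < ε / 4 := ENNReal.div_pos hε.ne' (by norm_num)
  -- choice of the mollifier
  obtain ⟨l, hl⟩ : ∃ l : ℕ, M * ENNReal.ofReal (1 / ((l : ℝ) + 1)) ≤ ε / 4 := by
    have h1 : Tendsto (fun l : ℕ => M * ENNReal.ofReal (1 / ((l : ℝ) + 1))) atTop
        (𝓝 (M * ENNReal.ofReal 0)) :=
      ENNReal.Tendsto.const_mul
        ((ENNReal.continuous_ofReal.tendsto 0).comp
          (tendsto_one_div_add_atTop_nhds_zero_nat (𝕜 := ℝ))) (Or.inr hM)
    rw [ENNReal.ofReal_zero, mul_zero] at h1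
    exact ((h1.eventually (ge_mem_nhds hε4)).exists)
  choose G hG using hw l
  set g : ℕ → (Fin m → ℂ) → ℝ := fun i z => ∫ y, φ l (z - y) * X i y with hg
  have hφc : Continuous (φ l) := (hφ.smooth l).continuous
  have hgm : ∀ i, Measurable (g i) := by
    intro i
    have h1 : Continuous (Function.uncurry fun z y : Fin m → ℂ => φ l (z - y) * X i y) :=
      (hφc.comp (continuous_fst.sub continuous_snd)).mul ((hX i).continuous.comp continuous_snd)
    exact (h1.stronglyMeasurable.integral_prod_right).measurable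
  have hGm : Measurable G :=
    measurable_of_tendsto_metrizable hgm (tendsto_pi_nhds.2 hG)
  -- the mollifications are bounded with support in a compact set
  set L' : Set (Fin m → ℂ) := Metric.cthickening 1 L with hL'
  have hL'c : IsCompact L' := hL.cthickening
  have hg0 : ∀ i z, z ∉ L' → g i z = 0 := by
    intro i z hz
    have h1 : ∀ y, φ l (z - y) * X i y = 0 := by
      intro y
      by_cases hy : y ∈ L
      · have h2 : φ l (z - y) = 0 := by
          apply hφ.supp
          by_contra h3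
          rw [not_lt] at h3
          apply hz
          refine Metric.mem_cthickening_of_dist_le z y 1 L hy ?_
          rw [dist_eq_norm]
          refine h3.trans ?_
          rw [div_le_one (by positivity)]
          have : (0 : ℝ) ≤ l := Nat.cast_nonneg l
          linarith
        rw [h2, zero_mul]
      · rw [hs i y hy, mul_zero]
    simp only [hg, h1, integral_zero]
  have hφs : HasCompactSupport (φ l) := by
    refine HasCompactSupport.intro
      (isCompact_closedBall (0 : Fin m → ℂ) (1 / ((l : ℝ) + 1))) fun z hz => ?_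
    rw [mem_closedBall_zero_iff, not_le] at hz
    exact hφ.supp l z hz
  have hφi : Integrable (φ l) := hφc.integrable_of_hasCompactSupport hφs
  have hgB : ∀ᶠ i in atTop, ∀ z, |g i z| ≤ B := by
    filter_upwards [hB] with i hi z
    calc |g i z| ≤ ∫ y, φ l (z - y) * B := by
          rw [← Real.norm_eq_abs]
          refine norm_integral_le_of_norm_le ((hφi.comp_sub_left z).mul_const _)
            (Eventually.of_forall fun y => ?_)
          rw [norm_mul, Real.norm_of_nonneg (hφ.nonneg l _), Real.norm_eq_abs]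
          exact mul_le_mul_of_nonneg_left (hi y) (hφ.nonneg l _)
      _ = B := by
          rw [integral_mul_const, integral_sub_left_eq_self (φ l) volume z, hφ.one l, one_mul]
  have hG0 : ∀ z, z ∉ L' → G z = 0 := by
    intro z hz
    refine tendsto_nhds_unique (hG z) ?_
    simp only [hg] at hg0
    simp only [hg0 _ z hz]
    exact tendsto_const_nhds
  have hGB : ∀ z, |G z| ≤ B := by
    intro z
    refine le_of_tendsto ((hG z).abs) ?_
    filter_upwards [hgB] with i hi
    exact hi z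
  have hlim : Tendsto (fun i => ∫⁻ z, ‖g i z - G z‖ₑ) atTop (𝓝 (∫⁻ _ : Fin m → ℂ, 0)) := by
    refine tendsto_lintegral_filter_of_dominated_convergence
      (L'.indicator fun _ => ENNReal.ofReal (2 * B)) ?_ ?_ ?_ ?_
    · exact Eventually.of_forall fun i => ((hgm i).sub hGm).enorm
    · filter_upwards [hgB] with i hi
      refine Eventually.of_forall fun z => ?_
      by_cases hz : z ∈ L'
      · rw [Set.indicator_of_mem hz, ← ofReal_norm]
        refine ENNReal.ofReal_le_ofReal ?_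
        rw [Real.norm_eq_abs]
        have h1 := abs_sub (g i z) (G z)
        have h2 := hi z
        have h3 := hGB z
        linarith
      · rw [Set.indicator_of_notMem hz, hg0 i z hz, hG0 z hz]
        simp
    · rw [lintegral_indicator hL'c.measurableSet, setLIntegral_const]
      exact ENNReal.mul_ne_top ENNReal.ofReal_ne_top hL'c.measure_lt_top.ne
    · refine Eventually.of_forall fun z => ?_
      have h1 : Tendsto (fun i => ‖g i z - G z‖) atTop (𝓝 0) := by
        rw [tendsto_zero_iff_norm_tendsto_zero]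
        simp only [norm_norm]
        have h2 := (hG z).sub_const (G z)
        rw [sub_self] at h2
        exact h2.norm.trans (by simp)
      have h2 := (ENNReal.continuous_ofReal.tendsto 0).comp h1
      simp only [ENNReal.ofReal_zero] at h2
      refine h2.congr fun i => ?_
      simp only [Function.comp, ofReal_norm]
  rw [lintegral_zero] at hlim
  have hev : ∀ᶠ i in atTop, ∫⁻ z, ‖g i z - G z‖ₑ ≤ ε / 4 := hlim.eventually (ge_mem_nhds hε4)
  have hall := (hev.and hM2)
  rw [← eventually_forall_ge_atTop] at hall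
  filter_upwards [hall] with i hi k hk
  obtain ⟨a1, a2⟩ := hi i le_rfl
  obtain ⟨b1, b2⟩ := hi k hk
  have a3 : ∫⁻ z, ‖X i z - g i z‖ₑ ≤ ε / 4 :=
    ((moll hφ l (hX i)).trans (by gcongr)).trans hl
  have b3 : ∫⁻ z, ‖X k z - g k z‖ₑ ≤ ε / 4 :=
    ((moll hφ l (hX k)).trans (by gcongr)).trans hl
  have hXm : ∀ i, Measurable (X i) := fun i => (hX i).continuous.measurable
  calc ∫⁻ z, ‖X i z - X k z‖ₑ
      ≤ ∫⁻ z, (‖X i z - g i z‖ₑ + ‖g i z - G z‖ₑ + (‖X k z - g k z‖ₑ + ‖g k z - G z‖ₑ)) := by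
        refine lintegral_mono fun z => ?_
        have e1 : X i z - X k z = ((X i z - g i z) + (g i z - G z)) -
            ((X k z - g k z) + (g k z - G z)) := by ring
        rw [e1]
        refine enorm_sub_le.trans ?_
        gcongr <;> exact enorm_add_le _ _
    _ = (∫⁻ z, ‖X i z - g i z‖ₑ) + (∫⁻ z, ‖g i z - G z‖ₑ) +
        ((∫⁻ z, ‖X k z - g k z‖ₑ) + ∫⁻ z, ‖g k z - G z‖ₑ) := by
        rw [lintegral_add_left, lintegral_add_left, lintegral_add_left]
        · exact ((hXm k).sub (hgm k)).enorm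
        · exact ((hXm i).sub (hgm i)).enorm
        · exact ((hXm i).sub (hgm i)).enorm.add ((hgm i).sub hGm).enorm
    _ ≤ ε / 4 + ε / 4 + (ε / 4 + ε / 4) := by gcongr
    _ = ε := by
        rw [← two_mul, ← two_mul, ← mul_assoc]
        norm_num
        rw [ENNReal.mul_div_cancel (by norm_num) (by norm_num)]

/-- the real derivative is controlled by `dz` -/
private theorem fderiv_le (hCAL : StCAL) {x : (Fin m → ℂ) → ℝ} {z : Fin m → ℂ}
    (hx : DifferentiableAt ℝ x z) : ‖fderiv ℝ x z‖ ≤ 2 * ∑ j, ‖dz j (cf x) z‖ := by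
  have h0 : 0 ≤ 2 * ∑ j, ‖dz j (cf x) z‖ :=
    mul_nonneg (by norm_num) (Finset.sum_nonneg fun j _ => norm_nonneg _)
  refine ContinuousLinearMap.opNorm_le_bound _ h0 fun v => ?_
  have h1 : ‖fderiv ℝ x z v‖ = ‖fderiv ℝ (cf x) z v‖ := by
    rw [Helper22.KP.cf_fderiv hx v, Complex.norm_real]
  by_cases hm : Nonempty (Fin m)
  · obtain ⟨j₀⟩ := hm
    have h2 := ((hCAL m j₀ j₀ (cf x) (cf x) z).2.1 (Helper22.KP.cf_diff hx)).1 v
    rw [h1, h2, mul_assoc, Finset.sum_mul, Finset.mul_sum]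
    refine (norm_sum_le _ _).trans (Finset.sum_le_sum fun j _ => ?_)
    have h3 : ‖db j (cf x) z‖ = ‖dz j (cf x) z‖ := by
      rw [Helper22.KP.dz_star_db hCAL hx j, norm_star]
    have h4 : ‖v j‖ ≤ ‖v‖ := norm_le_pi_norm v j
    calc ‖dz j (cf x) z * v j + db j (cf x) z * star (v j)‖
        ≤ ‖dz j (cf x) z‖ * ‖v j‖ + ‖db j (cf x) z‖ * ‖v j‖ := by
          refine (norm_add_le _ _).trans ?_
          rw [norm_mul, norm_mul, norm_star]
      _ = 2 * (‖dz j (cf x) z‖ * ‖v j‖) := by rw [h3]; ring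
      _ ≤ 2 * (‖dz j (cf x) z‖ * ‖v‖) := by gcongr
  · rw [not_nonempty_iff] at hm
    have h2 : v = 0 := Subsingleton.elim _ _
    rw [h2, map_zero, norm_zero, norm_zero, mul_zero]

private theorem loc_cauchy (hMEX : StMEX) (hCAL : StCAL) {U : Set (Fin m → ℂ)} (hU : IsOpen U)
    {x : ℕ → (Fin m → ℂ) → ℝ} (hx : ∀ i, ContDiffOn ℝ ∞ (x i) U)
    (hb : ∀ K ⊆ U, IsCompact K → ∃ B : ℝ, ∀ᶠ i in atTop, (∀ z ∈ K, |x i z| ≤ B) ∧
      ∀ j, ∫ z in K, ‖dz j (cf (x i)) z‖ ≤ B)
    {w : (Fin m → ℂ) → ℂ}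
    (hw : ∀ K ⊆ U, IsCompact K → ∀ ψ : (Fin m → ℂ) → ℂ, MemLp ψ 2 (volume.restrict K) →
      Tendsto (fun i => ∫ z in K, cf (x i) z * ψ z) atTop (𝓝 (∫ z in K, w z * ψ z)))
    {K : Set (Fin m → ℂ)} (hK : IsCompact K) (hKU : K ⊆ U) {ε : ENNReal} (hε : 0 < ε) :
    ∀ᶠ i in atTop, ∀ k ≥ i, ∫⁻ z in K, ‖x i z - x k z‖ₑ ≤ ε := by
  obtain ⟨φ, hφ⟩ := hMEX m
  obtain ⟨χ, hχs, hχc, hχU, hχ1⟩ := Helper19.KP.stk_cut hK hU hKU
  set L := tsupport χ with hL
  have hLc : IsCompact L := hχc
  set X : ℕ → (Fin m → ℂ) → ℝ := fun i z => χ z * x i z with hXd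
  have hXL : ∀ i z, z ∉ L → X i =ᶠ[𝓝 z] fun _ => 0 := by
    intro i z hz
    have h1 := notMem_tsupport_iff_eventuallyEq.1 hz
    filter_upwards [h1] with y hy
    simp only [hXd, hy, Pi.zero_apply, zero_mul]
  have hXs : ∀ i, ContDiff ℝ ∞ (X i) := by
    intro i
    rw [contDiff_iff_contDiffAt]
    intro z
    by_cases hz : z ∈ U
    · exact hχs.contDiffAt.mul ((hx i).contDiffAt (hU.mem_nhds hz))
    · exact (contDiffAt_const (c := (0 : ℝ))).congr_of_eventuallyEq
        (hXL i z fun h => hz (hχU h))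
  have hX0 : ∀ i z, z ∉ L → X i z = 0 := fun i z hz => (hXL i z hz).eq_of_nhds
  obtain ⟨B, hB⟩ := hb L hχU hLc
  obtain ⟨C₀, hC₀⟩ := hχc.exists_bound_of_continuous hχs.continuous
  have hC0 : 0 ≤ C₀ := (norm_nonneg _).trans (hC₀ 0)
  have hfχ : Continuous (fderiv ℝ χ) := hχs.continuous_fderiv (by simp)
  obtain ⟨C₁, hC₁⟩ := (hχc.fderiv ℝ).exists_bound_of_continuous hfχ
  have hC1 : 0 ≤ C₁ := (norm_nonneg _).trans (hC₁ 0)
  have hdzc : ∀ i j, ContinuousOn (dz j (cf (x i))) U := fun i j =>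
    (Helper19.KP.stk_cdz hU j _ (Helper19.KP.stk_cf _ (hx i))).continuousOn
  have hdi : ∀ i j, IntegrableOn (fun z => ‖dz j (cf (x i)) z‖) L := fun i j =>
    (((hdzc i j).norm).mono hχU).integrableOn_compact hLc
  set V : ℝ := (volume L).toReal with hV
  set M : ENNReal := ENNReal.ofReal (C₀ * (2 * ∑ _j : Fin m, B) + |B| * C₁ * V) with hM
  have hbd : ∀ᶠ i in atTop, ∀ z, |X i z| ≤ C₀ * |B| := by
    filter_upwards [hB] with i hi z
    by_cases hz : z ∈ L
    · rw [hXd]
      simp only [abs_mul]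
      exact mul_le_mul (hC₀ z) ((hi.1 z hz).trans (le_abs_self B)) (abs_nonneg _) hC0
    · rw [hX0 i z hz, abs_zero]
      positivity
  have hgr : ∀ᶠ i in atTop, ∫⁻ z, ‖fderiv ℝ (X i) z‖ₑ ≤ M := by
    filter_upwards [hB] with i hi
    have h1 : ∀ z ∈ L, ‖fderiv ℝ (X i) z‖ ≤
        C₀ * (2 * ∑ j, ‖dz j (cf (x i)) z‖) + |B| * C₁ := by
      intro z hz
      have hxd : DifferentiableAt ℝ (x i) z :=
        ((hx i).contDiffAt (hU.mem_nhds (hχU hz))).differentiableAt (by simp)
      have hcd : DifferentiableAt ℝ χ z := (hχs.differentiable (by simp)) z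
      have h2 : fderiv ℝ (X i) z = χ z • fderiv ℝ (x i) z + x i z • fderiv ℝ χ z :=
        fderiv_fun_mul hcd hxd
      rw [h2]
      refine (norm_add_le _ _).trans (add_le_add ?_ ?_)
      · rw [norm_smul]
        exact mul_le_mul (hC₀ z) (fderiv_le hCAL hxd) (norm_nonneg _) hC0
      · rw [norm_smul]
        exact mul_le_mul ((hi.1 z hz).trans (le_abs_self B)) (hC₁ z) (norm_nonneg _)
          (abs_nonneg _)
    have h3 : ∫⁻ z, ‖fderiv ℝ (X i) z‖ₑ = ∫⁻ z in L, ‖fderiv ℝ (X i) z‖ₑ := by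
      rw [← lintegral_indicator hLc.measurableSet]
      refine lintegral_congr fun z => ?_
      by_cases hz : z ∈ L
      · rw [Set.indicator_of_mem hz]
      · have h9 : fderiv ℝ (X i) z = 0 := by
          rw [(hXL i z hz).fderiv_eq]
          exact fderiv_const_apply 0
        rw [Set.indicator_of_notMem hz, h9, ← ofReal_norm, norm_zero, ENNReal.ofReal_zero]
    have i1 : IntegrableOn (fun z => C₀ * (2 * ∑ j, ‖dz j (cf (x i)) z‖) + |B| * C₁) L := by
      have h4 : IntegrableOn (fun z => ∑ j, ‖dz j (cf (x i)) z‖) L :=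
        integrable_finsetSum _ fun j _ => hdi i j
      exact ((h4.const_mul 2).const_mul C₀).add (integrableOn_const hLc.measure_lt_top.ne)
    rw [h3]
    calc ∫⁻ z in L, ‖fderiv ℝ (X i) z‖ₑ
        ≤ ∫⁻ z in L, ENNReal.ofReal (C₀ * (2 * ∑ j, ‖dz j (cf (x i)) z‖) + |B| * C₁) := by
          refine setLIntegral_mono_ae' hLc.measurableSet (Eventually.of_forall fun z hz => ?_)
          rw [← ofReal_norm]
          exact ENNReal.ofReal_le_ofReal (h1 z hz)
      _ = ENNReal.ofReal (∫ z in L, (C₀ * (2 * ∑ j, ‖dz j (cf (x i)) z‖) + |B| * C₁)) := by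
          rw [ofReal_integral_eq_lintegral_ofReal i1]
          refine Eventually.of_forall fun z => ?_
          have : 0 ≤ ∑ j, ‖dz j (cf (x i)) z‖ := Finset.sum_nonneg fun j _ => norm_nonneg _
          simp only [Pi.zero_apply]
          positivity
      _ ≤ M := by
          refine ENNReal.ofReal_le_ofReal ?_
          have h4 : IntegrableOn (fun z => ∑ j, ‖dz j (cf (x i)) z‖) L :=
            integrable_finsetSum _ fun j _ => hdi i j
          rw [integral_add ((h4.const_mul 2).const_mul C₀)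
            (integrableOn_const hLc.measure_lt_top.ne), integral_const_mul, integral_const_mul,
            integral_finsetSum _ fun j _ => hdi i j, setIntegral_const, smul_eq_mul]
          refine add_le_add ?_ ?_
          · gcongr with j _
            exact hi.2 j
          · rw [mul_comm]
            exact le_of_eq rfl
  have hwk : ∀ l z, ∃ a : ℝ, Tendsto (fun i => ∫ y, φ l (z - y) * X i y) atTop (𝓝 a) := by
    intro l z
    set ψ : (Fin m → ℂ) → ℂ := fun y => ((φ l (z - y) * χ y : ℝ) : ℂ) with hψ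
    have hψc : Continuous ψ := Complex.continuous_ofReal.comp
      (((hφ.smooth l).continuous.comp (continuous_const.sub continuous_id)).mul hχs.continuous)
    have hψs : HasCompactSupport ψ := by
      refine HasCompactSupport.intro hLc fun y hy => ?_
      simp only [hψ, image_eq_zero_of_notMem_tsupport hy, mul_zero, Complex.ofReal_zero]
    have h1 := hw L hχU hLc ψ ((hψc.memLp_of_hasCompactSupport hψs).restrict L)
    refine ⟨(∫ y in L, w y * ψ y).re, ?_⟩
    refine ((Complex.continuous_re.tendsto _).comp h1).congr fun i => ?_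
    have h2 : ∫ y, φ l (z - y) * X i y = ∫ y in L, φ l (z - y) * X i y := by
      refine (setIntegral_eq_integral_of_forall_compl_eq_zero fun y hy => ?_).symm
      rw [hX0 i y hy, mul_zero]
    have h3 : ∫ y in L, cf (x i) y * ψ y = ((∫ y in L, φ l (z - y) * X i y : ℝ) : ℂ) := by
      rw [← integral_complex_ofReal]
      refine integral_congr_ae (Eventually.of_forall fun y => ?_)
      simp only [cf, hψ, hXd]
      push_cast
      ring
    simp only [Function.comp]
    rw [h3, h2, Complex.ofReal_re]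
  have hfin := cauchy hφ hLc (fun i => (hXs i).of_le (by exact_mod_cast le_top)) hX0 hbd
    ENNReal.ofReal_ne_top hgr hwk hε
  filter_upwards [hfin] with i hi k hk
  calc ∫⁻ z in K, ‖x i z - x k z‖ₑ = ∫⁻ z in K, ‖X i z - X k z‖ₑ := by
        refine setLIntegral_congr_fun hK.measurableSet fun z hz => ?_
        simp only [hXd, (hχ1 z hz).eq_of_nhds, one_mul]
    _ ≤ ∫⁻ z, ‖X i z - X k z‖ₑ := setLIntegral_le_lintegral _ _
    _ ≤ ε := hi k hk

/-- compact exhaustion -/
private def exh (U : Set (Fin m → ℂ)) (n : ℕ) : Set (Fin m → ℂ) :=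
  Metric.closedBall 0 n ∩ (Metric.thickening (1 / ((n : ℝ) + 1)) Uᶜ)ᶜ

private theorem exh_compact (U : Set (Fin m → ℂ)) (n : ℕ) : IsCompact (exh U n) :=
  (isCompact_closedBall 0 _).inter_right Metric.isOpen_thickening.isClosed_compl

private theorem exh_sub (U : Set (Fin m → ℂ)) (n : ℕ) : exh U n ⊆ U := by
  intro z hz
  by_contra h
  exact hz.2 (Metric.self_subset_thickening (by positivity) _ h)

private theorem exh_mono (U : Set (Fin m → ℂ)) {n k : ℕ} (h : n ≤ k) : exh U n ⊆ exh U k := by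
  have h1 : (n : ℝ) ≤ k := by exact_mod_cast h
  refine Set.inter_subset_inter (Metric.closedBall_subset_closedBall h1) ?_
  refine Set.compl_subset_compl.2 (Metric.thickening_mono ?_ _)
  exact one_div_le_one_div_of_le (by positivity) (by linarith)

private theorem exh_union {U : Set (Fin m → ℂ)} (hU : IsOpen U) : ⋃ n, exh U n = U := by
  refine Set.Subset.antisymm (Set.iUnion_subset fun n => exh_sub U n) fun z hz => ?_
  obtain ⟨δ, hδ, hδU⟩ := Metric.isOpen_iff.1 hU z hz
  obtain ⟨n₁, hn₁⟩ := exists_nat_ge ‖z‖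
  obtain ⟨n₂, hn₂⟩ := exists_nat_one_div_lt hδ
  refine Set.mem_iUnion.2 ⟨max n₁ n₂, ?_, ?_⟩
  · rw [mem_closedBall_zero_iff]
    exact hn₁.trans (by exact_mod_cast le_max_left _ _)
  · intro h
    rw [Metric.mem_thickening_iff] at h
    obtain ⟨y, hy, hzy⟩ := h
    apply hy
    apply hδU
    rw [Metric.mem_ball, dist_comm]
    refine hzy.trans (lt_of_le_of_lt ?_ hn₂)
    have h1 : (n₂ : ℝ) ≤ ((max n₁ n₂ : ℕ) : ℝ) := by exact_mod_cast le_max_right _ _
    exact one_div_le_one_div_of_le (by positivity) (by linarith)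

end rellich

theorem hERE (hWKC : StWKC) (hMEX : StMEX) (hCAL : StCAL) : StERE := by
  intro m U hU x hx hb
  obtain ⟨σ, w, hσ, -, hwk⟩ := hWKC m 1 U hU (fun i _ => cf (x i))
    (fun i _ => (Helper19.KP.stk_cf _ (hx i)).continuousOn.aestronglyMeasurable
      hU.measurableSet) (by
      intro K hKU hK
      obtain ⟨B, hB⟩ := hb K hKU hK
      refine ⟨B ^ 2 * (volume K).toReal, ?_⟩
      filter_upwards [hB] with i hi q
      have hc : ContinuousOn (fun z => ‖cf (x i) z‖ ^ 2) K :=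
        (((Helper19.KP.stk_cf _ (hx i)).continuousOn.mono hKU).norm).pow 2
      have hI : IntegrableOn (fun z => ‖cf (x i) z‖ ^ 2) K := hc.integrableOn_compact hK
      refine ⟨hI, ?_⟩
      have h1 : ∫ z in K, ‖cf (x i) z‖ ^ 2 ≤ ∫ z in K, B ^ 2 := by
        refine setIntegral_mono_on hI (integrableOn_const hK.measure_lt_top.ne)
          hK.measurableSet fun z hz => ?_
        rw [cf, Complex.norm_real, Real.norm_eq_abs]
        exact pow_le_pow_left₀ (abs_nonneg _) (hi.1 z hz) 2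
      rw [setIntegral_const, smul_eq_mul, mul_comm] at h1
      exact h1)
  have hC : ∀ n : ℕ, ∀ᶠ i in atTop, ∀ k ≥ i,
      ∫⁻ z in exh U n, ‖x (σ i) z - x (σ k) z‖ₑ ≤ (2⁻¹ : ENNReal) ^ n := by
    intro n
    refine loc_cauchy hMEX hCAL hU (x := fun i => x (σ i)) (fun i => hx (σ i)) ?_ (w := w 0) ?_
      (exh_compact U n) (exh_sub U n) (ENNReal.pow_pos (by norm_num) n)
    · intro K hKU hK
      obtain ⟨B, hB⟩ := hb K hKU hK
      exact ⟨B, hσ.tendsto_atTop.eventually hB⟩
    · intro K hKU hK ψ hψ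
      exact hwk K hKU hK ψ hψ 0
  obtain ⟨τ, hτ, hτC⟩ := extraction_forall_of_eventually hC
  have hae : ∀ᵐ z ∂volume.restrict U, ∃ a : ℝ,
      Tendsto (fun i => x (σ (τ i)) z) atTop (𝓝 a) := by
    rw [← exh_union hU, ae_restrict_iUnion_iff]
    intro N
    have hm : ∀ n, AEMeasurable (fun z => ‖x (σ (τ (n + N))) z - x (σ (τ (n + N + 1))) z‖ₑ)
        (volume.restrict (exh U N)) := by
      intro n
      have h1 : ContinuousOn (fun z => x (σ (τ (n + N))) z - x (σ (τ (n + N + 1))) z) (exh U N) :=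
        ((hx _).continuousOn.mono (exh_sub U N)).sub ((hx _).continuousOn.mono (exh_sub U N))
      exact (h1.aemeasurable (exh_compact U N).measurableSet).enorm
    have h1 : ∫⁻ z in exh U N, ∑' n, ‖x (σ (τ (n + N))) z - x (σ (τ (n + N + 1))) z‖ₑ ≠ ⊤ := by
      rw [lintegral_tsum hm]
      refine ne_top_of_le_ne_top (b := ∑' n : ℕ, (2⁻¹ : ENNReal) ^ n) ?_
        (ENNReal.tsum_le_tsum fun n => ?_)
      · rw [ENNReal.tsum_geometric]
        simp
      · calc ∫⁻ z in exh U N, ‖x (σ (τ (n + N))) z - x (σ (τ (n + N + 1))) z‖ₑ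
            ≤ ∫⁻ z in exh U (n + N), ‖x (σ (τ (n + N))) z - x (σ (τ (n + N + 1))) z‖ₑ :=
              lintegral_mono_set (exh_mono U (Nat.le_add_left N n))
          _ ≤ (2⁻¹ : ENNReal) ^ (n + N) := hτC (n + N) _ (hτ.monotone (Nat.le_succ _))
          _ ≤ (2⁻¹ : ENNReal) ^ n := by
              refine pow_le_pow_of_le_one (by norm_num) (by norm_num) (Nat.le_add_right n N)
    have h2 := ae_lt_top' (AEMeasurable.tsum hm) h1
    filter_upwards [h2] with z hz
    have h3 : CauchySeq fun n => x (σ (τ (n + N))) z := by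
      refine cauchySeq_of_edist_le_of_tsum_ne_top
        (fun n => ‖x (σ (τ (n + N))) z - x (σ (τ (n + N + 1))) z‖ₑ) (fun n => ?_) hz.ne
      rw [edist_eq_enorm_sub, Nat.succ_eq_add_one, add_right_comm]
    obtain ⟨a, ha⟩ := cauchySeq_tendsto_of_complete h3
    exact ⟨a, (tendsto_add_atTop_iff_nat N).1 ha⟩
  classical
  refine ⟨fun i => σ (τ i), fun z => if h : ∃ a : ℝ,
    Tendsto (fun i => x (σ (τ i)) z) atTop (𝓝 a) then h.choose else 0, hσ.comp hτ, ?_⟩
  filter_upwards [hae] with z hz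
  rw [dif_pos hz]
  exact hz.choose_spec

end Pool.Agent.Helper76.KP
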